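import Mathlib

/-!
Wreath recursions on free groups and the tree action they define.
-/

set_option autoImplicit false

namespace Pool.Agent.Helper522

/-- The permutational wreath product `S_X` with `X` copies of `F`: pairs of a permutation of `X`
and a family of elements of `F`. -/
@[ext] structure Wr (X F : Type) where
  p : Equiv.Perm X
  f : X → F

namespace Wr

variable {X F : Type} [Group F]

instance : Mul (Wr X F) := ⟨fun g h => ⟨g.p * h.p, fun x => g.f (h.p x) * h.f x⟩⟩
instance : One (Wr X F) := ⟨⟨1, fun _ => 1⟩⟩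
instance : Inv (Wr X F) := ⟨fun g => ⟨g.p⁻¹, fun x => (g.f (g.p⁻¹ x))⁻¹⟩⟩

@[simp] theorem mul_p (g h : Wr X F) : (g * h).p = g.p * h.p := rfl
@[simp] theorem mul_f (g h : Wr X F) (x : X) : (g * h).f x = g.f (h.p x) * h.f x := rfl
@[simp] theorem one_p : (1 : Wr X F).p = 1 := rfl
@[simp] theorem one_f (x : X) : (1 : Wr X F).f x = 1 := rfl
@[simp] theorem inv_p (g : Wr X F) : g⁻¹.p = g.p⁻¹ := rfl
@[simp] theorem inv_f (g : Wr X F) (x : X) : g⁻¹.f x = (g.f (g.p⁻¹ x))⁻¹ := rfl

instance : Group (Wr X F) where
  mul_assoc g h k := by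
    ext x
    · rfl
    · simp [mul_assoc]
  one_mul g := by
    ext x
    · rfl
    · simp
  mul_one g := by
    ext x
    · rfl
    · simp
  inv_mul_cancel g := by
    ext x
    · simp
    · simp

end Wr

/-- The finite data of a wreath recursion: each generator `s` has a permutation of the alphabet
`X` and a section (an element of the free group on the generators) at each letter. -/
structure Rec (X S : Type) where
  perm : S → Equiv.Perm X
  sec : S → X → FreeGroup S

namespace Rec

variable {X S : Type} (R : Rec X S)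

/-- The wreath recursion determined by the data. -/
def phi : FreeGroup S →* Wr X (FreeGroup S) := FreeGroup.lift fun s => ⟨R.perm s, R.sec s⟩

/-- The permutation part. -/
def pi (g : FreeGroup S) : Equiv.Perm X := (R.phi g).p

/-- The section at a letter. -/
def sc (g : FreeGroup S) (x : X) : FreeGroup S := (R.phi g).f x

/-- The action on words: `g (x w) = g(x) g|_x (w)`. -/
def act : List X → FreeGroup S → List X
  | [], _ => []
  | x :: w, g => R.pi g x :: act w (R.sc g x)

/-- The section at a word. -/
def secL : FreeGroup S → List X → FreeGroup S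
  | g, [] => g
  | g, x :: v => secL (R.sc g x) v

/-- Two elements act in the same way on all words, that is, they agree modulo the kernel of the
action. -/
def Same (g h : FreeGroup S) : Prop := ∀ w, R.act w g = R.act w h

/-- The element acts trivially. -/
def Triv (g : FreeGroup S) : Prop := R.Same g 1

variable {R}

@[simp] theorem pi_of (s : S) : R.pi (FreeGroup.of s) = R.perm s := by simp [pi, phi]
@[simp] theorem sc_of (s : S) (x : X) : R.sc (FreeGroup.of s) x = R.sec s x := by simp [sc, phi]
@[simp] theorem pi_one : R.pi 1 = 1 := by simp [pi]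
@[simp] theorem sc_one (x : X) : R.sc 1 x = 1 := by simp [sc]
theorem pi_mul (g h : FreeGroup S) : R.pi (g * h) = R.pi g * R.pi h := by simp [pi]
theorem sc_mul (g h : FreeGroup S) (x : X) :
    R.sc (g * h) x = R.sc g (R.pi h x) * R.sc h x := by simp [sc, pi]
theorem pi_inv (g : FreeGroup S) : R.pi g⁻¹ = (R.pi g)⁻¹ := by simp [pi]
theorem sc_inv (g : FreeGroup S) (x : X) :
    R.sc g⁻¹ x = (R.sc g ((R.pi g)⁻¹ x))⁻¹ := by simp [sc, pi]
theorem sc_inv' (g : FreeGroup S) (x : X) :
    R.sc g⁻¹ (R.pi g x) = (R.sc g x)⁻¹ := by simp [sc_inv]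
theorem pi_pow (g : FreeGroup S) (k : ℕ) : R.pi (g ^ k) = R.pi g ^ k := by
  induction k with
  | zero => simp
  | succ k ih => rw [pow_succ, pow_succ, pi_mul, ih]

theorem act_mul (w : List X) (g h : FreeGroup S) :
    R.act w (g * h) = R.act (R.act w h) g := by
  induction w generalizing g h with
  | nil => rfl
  | cons x w ih =>
    simp only [act, pi_mul, sc_mul, ih]
    rfl

@[simp] theorem act_one (w : List X) : R.act w 1 = w := by
  induction w with
  | nil => rfl
  | cons x w ih =>
    simp only [act, pi_one, sc_one, ih]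
    rfl

theorem act_length (w : List X) (g : FreeGroup S) : (R.act w g).length = w.length := by
  induction w generalizing g with
  | nil => rfl
  | cons x w ih => simp [act, ih]

theorem Same.refl (g : FreeGroup S) : R.Same g g := fun _ => rfl
theorem Same.symm {g h : FreeGroup S} (H : R.Same g h) : R.Same h g := fun w => (H w).symm
theorem Same.trans {g h k : FreeGroup S} (H : R.Same g h) (H' : R.Same h k) : R.Same g k :=
  fun w => (H w).trans (H' w)
theorem Same.mul {g g' h h' : FreeGroup S} (H : R.Same g g') (H' : R.Same h h') :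
    R.Same (g * h) (g' * h') := by
  intro w
  rw [act_mul, act_mul, H' w, H]
theorem Same.inv {g h : FreeGroup S} (H : R.Same g h) : R.Same g⁻¹ h⁻¹ := by
  intro w
  have h2 : R.act (R.act w h⁻¹) h = w := by rw [← act_mul, mul_inv_cancel, act_one]
  have h3 : R.act (R.act w h⁻¹) g = w := by rw [H]; exact h2
  calc R.act w g⁻¹ = R.act (R.act (R.act w h⁻¹) g) g⁻¹ := by rw [h3]
    _ = R.act w h⁻¹ := by rw [← act_mul, inv_mul_cancel, act_one]
theorem Same.pow {g h : FreeGroup S} (H : R.Same g h) (k : ℕ) : R.Same (g ^ k) (h ^ k) := by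
  induction k with
  | zero => simpa using Same.refl 1
  | succ k ih => rw [pow_succ, pow_succ]; exact ih.mul H

theorem same_iff {g h : FreeGroup S} :
    R.Same g h ↔ R.pi g = R.pi h ∧ ∀ x, R.Same (R.sc g x) (R.sc h x) := by
  constructor
  · intro H
    constructor
    · ext x
      have := H [x]
      simpa [act] using this
    · intro x w
      have := H (x :: w)
      simp only [act, List.cons.injEq] at this
      exact this.2
  · rintro ⟨h1, h2⟩ w
    cases w with
    | nil => rfl
    | cons x w => simp only [act, h1, h2 x w]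

theorem Same.secL {g h : FreeGroup S} (H : R.Same g h) (v : List X) :
    R.Same (R.secL g v) (R.secL h v) := by
  induction v generalizing g h with
  | nil => exact H
  | cons x v ih => exact ih ((same_iff.1 H).2 x)

theorem triv_iff {g : FreeGroup S} : R.Triv g ↔ R.pi g = 1 ∧ ∀ x, R.Triv (R.sc g x) := by
  unfold Triv
  rw [same_iff]
  simp

theorem Triv.one : R.Triv 1 := Same.refl 1
theorem Triv.mul {g h : FreeGroup S} (H : R.Triv g) (H' : R.Triv h) : R.Triv (g * h) := by
  have := Same.mul H H'
  simpa [Triv] using this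
theorem Triv.inv {g : FreeGroup S} (H : R.Triv g) : R.Triv g⁻¹ := by
  have := Same.inv H
  simpa [Triv] using this
theorem Triv.inv_iff {g : FreeGroup S} : R.Triv g⁻¹ ↔ R.Triv g := by
  constructor
  · intro h; simpa using h.inv
  · exact Triv.inv
theorem Triv.pow {g : FreeGroup S} (H : R.Triv g) (k : ℕ) : R.Triv (g ^ k) := by
  have := Same.pow H k
  simpa [Triv] using this
theorem Triv.conj {g : FreeGroup S} (H : R.Triv g) (h : FreeGroup S) :
    R.Triv (h * g * h⁻¹) := by
  have := Same.mul (Same.mul (Same.refl (R := R) h) H) (Same.refl h⁻¹)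
  simpa [Triv] using this
theorem Triv.conj' {g : FreeGroup S} (H : R.Triv g) (h : FreeGroup S) :
    R.Triv (h⁻¹ * g * h) := by
  have := H.conj h⁻¹
  simpa using this
theorem same_iff_triv {g h : FreeGroup S} : R.Same g h ↔ R.Triv (g * h⁻¹) := by
  constructor
  · intro H
    have := Same.mul H (Same.refl (R := R) h⁻¹)
    simpa [Triv] using this
  · intro H
    have := Same.mul H (Same.refl (R := R) h)
    simpa [Triv] using this

/-- Coinduction principle for triviality. -/
theorem triv_of_closed (P : Set (FreeGroup S))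
    (hP : ∀ g ∈ P, R.pi g = 1 ∧ ∀ x, R.sc g x ∈ P ∨ R.Triv (R.sc g x)) :
    ∀ g ∈ P, R.Triv g := by
  have key : ∀ (w : List X) (g : FreeGroup S), g ∈ P → R.act w g = w := by
    intro w
    induction w with
    | nil => intro g _; rfl
    | cons x w ih =>
      intro g hg
      obtain ⟨h1, h2⟩ := hP g hg
      simp only [act, h1, Equiv.Perm.coe_one, id_eq, List.cons.injEq, true_and]
      rcases h2 x with h | h
      · exact ih _ h
      · have := h w
        simpa using this
  intro g hg w
  rw [key w g hg, act_one]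

/-- Descending product `f (k-1) * ... * f 0`. -/
def prodDown {F : Type} [Group F] (f : ℕ → F) : ℕ → F
  | 0 => 1
  | k + 1 => f k * prodDown f k

theorem prodDown_succ' {F : Type} [Group F] (f : ℕ → F) (k : ℕ) :
    prodDown f (k + 1) = prodDown (fun i => f (i + 1)) k * f 0 := by
  induction k with
  | zero => simp [prodDown]
  | succ k ih =>
    rw [prodDown, ih, prodDown, mul_assoc]

theorem orbit {g : FreeGroup S} (x : ℕ → X) (hx : ∀ i, R.pi g (x i) = x (i + 1)) (k : ℕ) :
    R.pi (g ^ k) (x 0) = x k ∧ R.sc (g ^ k) (x 0) = prodDown (fun i => R.sc g (x i)) k := by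
  induction k with
  | zero => simp [prodDown]
  | succ k ih =>
    rw [pow_succ', pi_mul, sc_mul, ih.2, Equiv.Perm.mul_apply, ih.1]
    exact ⟨hx k, rfl⟩

/-- `g ^ k` fixes the letter and has trivial section there. -/
def Good (R : Rec X S) (g : FreeGroup S) (k : ℕ) (x : X) : Prop :=
  R.pi (g ^ k) x = x ∧ R.Triv (R.sc (g ^ k) x)

theorem sc_pow_of_fix {g : FreeGroup S} {x : X} (h : R.pi g x = x) (j : ℕ) :
    R.pi (g ^ j) x = x ∧ R.sc (g ^ j) x = R.sc g x ^ j := by
  induction j with
  | zero => simp
  | succ j ih =>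
    rw [pow_succ', pi_mul, sc_mul, Equiv.Perm.mul_apply, ih.1, ih.2, pow_succ']
    exact ⟨h, rfl⟩

theorem Good.mul {g : FreeGroup S} {k : ℕ} {x : X} (h : R.Good g k x) (j : ℕ) :
    R.Good g (k * j) x := by
  unfold Good
  rw [pow_mul]
  obtain ⟨h1, h2⟩ := sc_pow_of_fix h.1 j
  exact ⟨h1, by rw [h2]; exact h.2.pow j⟩

theorem Good.step {g : FreeGroup S} {k : ℕ} {x : X} (h : R.Good g k x) :
    R.Good g k (R.pi g x) := by
  have e : g ^ k * g = g * g ^ k := by rw [← pow_succ, pow_succ']
  have e1 : R.pi (g ^ k) (R.pi g x) = R.pi g x := by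
    have : R.pi (g ^ k * g) x = R.pi (g * g ^ k) x := by rw [e]
    rw [pi_mul, pi_mul, Equiv.Perm.mul_apply, Equiv.Perm.mul_apply, h.1] at this
    exact this
  refine ⟨e1, ?_⟩
  have e2 : R.sc (g ^ k * g) x = R.sc (g * g ^ k) x := by rw [e]
  rw [sc_mul, sc_mul, h.1] at e2
  have e3 : R.sc (g ^ k) (R.pi g x) = R.sc g x * R.sc (g ^ k) x * (R.sc g x)⁻¹ := by
    rw [← e2]; group
  rw [e3]
  exact h.2.conj _

theorem Good.steps {g : FreeGroup S} {k : ℕ} {x : X} (h : R.Good g k x) (j : ℕ) :
    R.Good g k (R.pi (g ^ j) x) := by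
  induction j with
  | zero => simpa using h
  | succ j ih =>
    rw [pow_succ', pi_mul, Equiv.Perm.mul_apply]
    exact ih.step

theorem triv_of_good {g : FreeGroup S} {k : ℕ} (h : ∀ x, R.Good g k x) : R.Triv (g ^ k) := by
  rw [triv_iff]
  constructor
  · ext x; exact (h x).1
  · intro x; exact (h x).2

theorem secL_append (g : FreeGroup S) (v w : List X) :
    R.secL g (v ++ w) = R.secL (R.secL g v) w := by
  induction v generalizing g with
  | nil => rfl
  | cons x v ih => exact ih _

theorem secL_one (v : List X) : R.secL 1 v = 1 := by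
  induction v with
  | nil => rfl
  | cons x v ih => simpa [secL] using ih

theorem Triv.zpow {g : FreeGroup S} (H : R.Triv g) (k : ℤ) : R.Triv (g ^ k) := by
  rcases k with k | k
  · simpa using H.pow k
  · rw [zpow_negSucc]
    exact (H.pow (k + 1)).inv

/-! ### Extending a recursion by extra letters and extra generators -/

section Ext

variable {E Q : Type}

/-- The old generators act only on the old letters, the new ones only on the new letters. -/
def ext (R : Rec X S) (p : Q → Equiv.Perm E) (f : Q → E → FreeGroup (S ⊕ Q)) :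
    Rec (X ⊕ E) (S ⊕ Q) where
  perm g := match g with
    | Sum.inl s => Equiv.sumCongr (R.perm s) (Equiv.refl E)
    | Sum.inr q => Equiv.sumCongr (Equiv.refl X) (p q)
  sec g x := match g, x with
    | Sum.inl s, Sum.inl x => FreeGroup.map Sum.inl (R.sec s x)
    | Sum.inl _, Sum.inr _ => 1
    | Sum.inr _, Sum.inl _ => 1
    | Sum.inr q, Sum.inr e => f q e

variable (R) (p : Q → Equiv.Perm E) (f : Q → E → FreeGroup (S ⊕ Q))

/-- Kill the new generators. -/
def kill : FreeGroup (S ⊕ Q) →* FreeGroup S :=
  FreeGroup.lift (fun g => match g with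
    | Sum.inl s => FreeGroup.of s
    | Sum.inr _ => 1)

theorem kill_map (g : FreeGroup S) :
    kill (Q := Q) (FreeGroup.map Sum.inl g) = g := by
  induction g using FreeGroup.induction_on with
  | C1 => simp
  | of s => simp [kill]
  | inv_of s h => simp [kill]
  | mul g h hg hh => rw [_root_.map_mul, _root_.map_mul, hg, hh]

theorem ext_inl (g : FreeGroup (S ⊕ Q)) : ∀ (x : X),
    (ext R p f).pi g (Sum.inl x) = Sum.inl (R.pi (kill g) x) ∧
    (ext R p f).sc g (Sum.inl x) = FreeGroup.map Sum.inl (R.sc (kill g) x) := by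
  induction g using FreeGroup.induction_on with
  | C1 => intro x; simp
  | of s =>
    intro x
    rcases s with s | q
    · simp [kill, ext]
    · simp [kill, ext]
  | inv_of s h =>
    intro x
    have key : (ext R p f).pi (FreeGroup.of s) (Sum.inl ((R.pi (kill (FreeGroup.of s)))⁻¹ x)) =
        Sum.inl x := by
      rw [(h _).1]
      congr 1
      exact Equiv.apply_symm_apply _ _
    have key2 : ((ext R p f).pi (FreeGroup.of s))⁻¹ (Sum.inl x) =
        Sum.inl ((R.pi (kill (FreeGroup.of s)))⁻¹ x) := by
      rw [← key]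
      exact Equiv.symm_apply_apply _ _
    rw [pi_inv, sc_inv, key2, (h _).2, _root_.map_inv, pi_inv, sc_inv, _root_.map_inv]
    exact ⟨rfl, rfl⟩
  | mul g h hg hh =>
    intro x
    rw [pi_mul, sc_mul, Equiv.Perm.mul_apply, (hh x).1, (hh x).2, (hg _).1, (hg _).2,
      _root_.map_mul, pi_mul, sc_mul, _root_.map_mul]
    exact ⟨rfl, rfl⟩

theorem ext_map_inr (g : FreeGroup S) (e : E) :
    (ext R p f).pi (FreeGroup.map Sum.inl g) (Sum.inr e) = Sum.inr e ∧
    (ext R p f).sc (FreeGroup.map Sum.inl g) (Sum.inr e) = 1 := by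
  induction g using FreeGroup.induction_on with
  | C1 => simp
  | of s => simp [ext]
  | inv_of s h =>
    rw [_root_.map_inv, pi_inv, sc_inv]
    have key : ((ext R p f).pi (FreeGroup.map Sum.inl (FreeGroup.of s)))⁻¹ (Sum.inr e) =
        Sum.inr e := by
      conv_lhs => rw [← h.1]
      exact Equiv.symm_apply_apply _ _
    rw [key, h.2]
    simp
  | mul g h hg hh =>
    rw [_root_.map_mul, pi_mul, sc_mul, Equiv.Perm.mul_apply, hh.1, hh.2, hg.1, hg.2]
    simp

theorem ext_triv_map (g : FreeGroup S) :
    (ext R p f).Triv (FreeGroup.map Sum.inl g) ↔ R.Triv g := by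
  constructor
  · intro h
    refine triv_of_closed {g | (ext R p f).Triv (FreeGroup.map Sum.inl g)} ?_ g h
    intro g hg
    obtain ⟨h1, h2⟩ := triv_iff.1 hg
    constructor
    · ext x
      have := (ext_inl R p f (FreeGroup.map Sum.inl g) x).1
      rw [h1, kill_map] at this
      simp only [Equiv.Perm.coe_one, id_eq, Sum.inl.injEq] at this
      exact this.symm
    · intro x
      left
      have := (ext_inl R p f (FreeGroup.map Sum.inl g) x).2
      rw [kill_map] at this
      have h3 := h2 (Sum.inl x)
      rw [this] at h3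
      exact h3
  · intro h
    refine triv_of_closed {k | ∃ g, R.Triv g ∧ k = FreeGroup.map Sum.inl g} ?_ _ ⟨g, h, rfl⟩
    rintro _ ⟨g, hg, rfl⟩
    obtain ⟨h1, h2⟩ := triv_iff.1 hg
    constructor
    · ext x
      rcases x with x | e
      · rw [(ext_inl R p f _ x).1, kill_map, h1]
        simp
      · rw [(ext_map_inr R p f g e).1]
        simp
    · intro x
      rcases x with x | e
      · left
        rw [(ext_inl R p f _ x).2, kill_map]
        exact ⟨_, h2 x, rfl⟩
      · right
        rw [(ext_map_inr R p f g e).2]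
        exact Triv.one

end Ext

end Rec

end Pool.Agent.Helper522
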