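import Mathlib

/-!
Undecidability core. The first part (a fixed TM0 machine with undecidable halting problem and
computable inputs) is vendored from the team toolkit of helper247. The second part turns the
machine into a two-register residue-affine system on pairs of natural numbers.
-/

set_option autoImplicit false

namespace Pool.Agent.Helper522.Machine

open Turing Relation

open Turing.PartrecToTM2 (trNat trList trNum trPosNum)

/-- A universal partial function with undecidable domain. -/
def u (n : ℕ) : Part ℕ := (Denumerable.ofNat Nat.Partrec.Code n).eval 0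

theorem u_partrec : Partrec u := by
  have h := Nat.Partrec.Code.eval_part.comp
    (Computable.ofNat Nat.Partrec.Code) (Computable.const (0 : ℕ))
  exact h

theorem u_not_computable : ¬ ComputablePred (fun n => (u n).Dom) := by
  intro h
  refine ComputablePred.halting_problem 0 ?_
  have : ManyOneReducible (fun c : Nat.Partrec.Code => (Nat.Partrec.Code.eval c 0).Dom)
      (fun n => (u n).Dom) := by
    refine ⟨Encodable.encode, Computable.encode, ?_⟩
    intro c
    simp [u, Denumerable.ofNat_encode]
  exact ComputablePred.computable_of_manyOneReducible this h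

theorem exists_code_u : ∃ c : ToPartrec.Code, ∀ n : ℕ, (c.eval [n]).Dom ↔ (u n).Dom := by
  obtain ⟨c, hc⟩ := ToPartrec.Code.exists_code (Nat.Partrec'.part_iff₁.2 u_partrec)
  refine ⟨c, fun n => ?_⟩
  have := hc ⟨[n], rfl⟩
  simp only at this
  rw [this]
  simp [List.Vector.head]

theorem finite_states {Γ Λ : Type} [Inhabited Γ] [Inhabited Λ] (M : TM0.Machine Γ Λ) (S : Set Λ)
    (hS : S.Finite) (ss : TM0.Supports M S) :
    ∃ (Λ' : Type) (_ : Inhabited Λ') (_ : Finite Λ') (M' : TM0.Machine Γ Λ'),
      ∀ l, (StateTransition.eval (TM0.step M') (TM0.init l)).Dom ↔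
        (StateTransition.eval (TM0.step M) (TM0.init l)).Dom := by
  classical
  have : Finite S := hS
  let _ : Inhabited S := ⟨⟨default, ss.1⟩⟩
  let f₁ : PointedMap Γ Γ := ⟨id, rfl⟩
  let g₁ : PointedMap Λ S := ⟨fun q => if h : q ∈ S then ⟨q, h⟩ else default, by
    simp [ss.1]; rfl⟩
  let M' : TM0.Machine Γ S := M.map f₁ f₁ g₁ Subtype.val
  have hg : ∀ q ∈ S, (g₁ q).val = q := by
    intro q hq
    change (if h : q ∈ S then (⟨q, h⟩ : S) else default).val = q
    simp [hq]
  have hf : Function.RightInverse f₁ f₁ := fun a => rfl
  refine ⟨S, inferInstance, inferInstance, M', fun l => ?_⟩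
  have := TM0.Machine.map_respects M f₁ f₁ g₁ Subtype.val ss hf hg
  refine StateTransition.tr_eval_dom this (a₁ := TM0.init l) (a₂ := TM0.init l) ⟨ss.1, ?_⟩
  have h := TM0.map_init f₁ g₁ l
  rw [h]
  congr 1
  exact List.map_id l

/-- The tape symbol carrying the symbol `a` on the main stack. -/
noncomputable def sym (b : Bool) (a : PartrecToTM2.Γ') :
    TM2to1.Γ' PartrecToTM2.K' (fun _ => PartrecToTM2.Γ') :=
  (b, Function.update (fun _ => none) PartrecToTM2.K'.main (some a))

theorem exists_machine :
    ∃ (Λ : Type) (_ : Inhabited Λ) (_ : Finite Λ)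
      (M : TM0.Machine (TM2to1.Γ' PartrecToTM2.K' (fun _ => PartrecToTM2.Γ')) Λ),
      ∀ n, (StateTransition.eval (TM0.step M)
        (TM0.init (sym true .cons :: (trNat n).reverse.map (sym false)))).Dom ↔ (u n).Dom := by
  classical
  obtain ⟨c, hc⟩ := exists_code_u
  let inst : Inhabited PartrecToTM2.Λ' :=
    ⟨PartrecToTM2.trNormal c PartrecToTM2.Cont'.halt⟩
  let M2 := PartrecToTM2.tr
  let M1 := TM2to1.tr M2
  let M0 := TM1to0.tr M1
  have s2 : @TM2.Supports _ _ _ _ inst M2 (PartrecToTM2.codeSupp c PartrecToTM2.Cont'.halt) :=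
    PartrecToTM2.tr_supports c PartrecToTM2.Cont'.halt
  have s1 := TM2to1.tr_supports M2 s2
  have s0 := TM1to0.tr_supports M1 s1
  obtain ⟨Λ, i1, i2, M, hM⟩ := finite_states M0 _ (Finset.finite_toSet _) s0
  refine ⟨Λ, i1, i2, M, fun n => ?_⟩
  rw [hM, ← hc]
  have h2 := PartrecToTM2.tr_eval c [n]
  have h2' : (StateTransition.eval (TM2.step PartrecToTM2.tr)
      (PartrecToTM2.init c [n])).Dom ↔ (c.eval [n]).Dom := by
    rw [h2]; rfl
  rw [← h2']
  have h1 := StateTransition.tr_eval_dom (TM2to1.tr_respects M2)
    (TM2to1.trCfg_init (K := PartrecToTM2.K') (Γ := fun _ => PartrecToTM2.Γ')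
      (Λ := PartrecToTM2.Λ') (σ := Option PartrecToTM2.Γ') PartrecToTM2.K'.main (trList [n]))
  have e1 : (TM2.init PartrecToTM2.K'.main (trList [n]) :
      TM2.Cfg (fun _ : PartrecToTM2.K' => PartrecToTM2.Γ') PartrecToTM2.Λ'
        (Option PartrecToTM2.Γ')) = PartrecToTM2.init c [n] := by
    unfold TM2.init PartrecToTM2.init
    congr 1
    funext k
    cases k <;> rfl
  rw [e1] at h1
  rw [← h1]
  have h0 := StateTransition.tr_eval_dom (TM1to0.tr_respects M1)
    (a₁ := TM1.init (TM2to1.trInit PartrecToTM2.K'.main (trList [n]))) rfl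
  rw [← h0]
  have e2 : TM2to1.trInit (Γ := fun _ => PartrecToTM2.Γ') PartrecToTM2.K'.main (trList [n]) =
      sym true .cons :: (trNat n).reverse.map (sym false) := by
    have : (trList [n]).reverse = PartrecToTM2.Γ'.cons :: (trNat n).reverse := by simp
    unfold TM2to1.trInit
    rw [this]
    rfl
  rw [← e2]
  rfl

/-- The recursion computing the binary digits of a number. -/
theorem trNat_rec (n : ℕ) : trNat (n + 1) =
    (if (n + 1) % 2 = 1 then PartrecToTM2.Γ'.bit1 else PartrecToTM2.Γ'.bit0) ::
      trNat ((n + 1) / 2) := by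
  have key : ∀ (b : Bool) (m : ℕ), (b = false → m ≠ 0) → trNat (Nat.bit b m) =
      (if b then PartrecToTM2.Γ'.bit1 else PartrecToTM2.Γ'.bit0) :: trNat m := by
    intro b m hbm
    have h1 : ((Nat.bit b m : ℕ) : Num) = cond b Num.bit1 Num.bit0 (m : Num) :=
      Num.ofNat'_bit b m
    unfold trNat
    rw [h1]
    rcases hm : (m : Num) with _ | p
    · cases b
      · exfalso
        apply hbm rfl
        have : ((m : Num) : ℕ) = 0 := by rw [hm]; rfl
        rwa [Num.to_of_nat] at this
      · rfl
    · cases b <;> rfl
  have h := key ((n + 1) % 2 = 1) ((n + 1) / 2) (by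
    intro h
    simp only [decide_eq_false_iff_not] at h
    omega)
  have hb : Nat.bit (decide ((n + 1) % 2 = 1)) ((n + 1) / 2) = n + 1 := by
    by_cases h : (n + 1) % 2 = 1
    · simp [Nat.bit, h]; omega
    · simp [Nat.bit, h]; omega
  rw [hb] at h
  rw [h]
  simp

/-- The coded binary digits of a number form a computable function. -/
theorem digits_computable (κ : PartrecToTM2.Γ' → ℕ) :
    Computable (fun n : ℕ => (trNat n).map κ) := by
  suffices h : Primrec₂ (fun (_ : Unit) (n : ℕ) => (trNat n).map κ) from
    (h.comp (Primrec.const ()) Primrec.id).to_comp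
  refine Primrec.nat_strong_rec _ (g := fun _ (l : List (List ℕ)) =>
    if l.length = 0 then some []
    else (l[l.length / 2]?).map (fun v =>
      (if l.length % 2 = 1 then κ PartrecToTM2.Γ'.bit1 else κ PartrecToTM2.Γ'.bit0) :: v)) ?_ ?_
  · refine Primrec.ite (PrimrecRel.comp Primrec.eq
      (Primrec.list_length.comp Primrec.snd) (Primrec.const 0)) (Primrec.const _) ?_
    refine Primrec.option_map (Primrec.list_getElem?.comp Primrec.snd
      (Primrec.nat_div.comp (Primrec.list_length.comp Primrec.snd) (Primrec.const 2))) ?_
    refine Primrec.list_cons.comp (Primrec.ite (PrimrecRel.comp Primrec.eq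
      (Primrec.nat_mod.comp (Primrec.list_length.comp (Primrec.snd.comp Primrec.fst))
        (Primrec.const 2)) (Primrec.const 1)) (Primrec.const _) (Primrec.const _)) Primrec.snd
  · intro _ n
    rcases n with _ | n
    · simp
    · have : (n + 1) / 2 < n + 1 := by omega
      simp only [List.length_map, List.length_range]
      rw [if_neg (by omega)]
      rw [List.getElem?_map, List.getElem?_range this, trNat_rec n]
      simp only [Option.map_some, List.map_cons]
      split_ifs <;> rfl

/-! ### Two-register residue-affine systems -/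

/-- A residue-affine system on pairs of naturals with modulus `D`. -/
structure Sys where
  D : ℕ
  hD : 2 ≤ D
  step : ℕ → ℕ → Option (ℕ × ℕ × ℕ × ℕ)

/-- The system started at `(L, R)` reaches a pair whose residues have no instruction. -/
inductive Halts (T : Sys) : ℕ → ℕ → Prop
  | stop (L R : ℕ) : T.step (L % T.D) (R % T.D) = none → Halts T L R
  | next (L R m c m' c' : ℕ) : T.step (L % T.D) (R % T.D) = some (m, c, m', c') →
      Halts T (m * (L / T.D) + c) (m' * (R / T.D) + c') → Halts T L R

section Num

variable {Γ : Type} [Inhabited Γ] (κ : Γ → ℕ) (B : ℕ)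

/-- The number with the given base `B` digits. -/
def numL (l : List Γ) : ℕ := l.foldr (fun a n => κ a + B * n) 0

theorem numL_append_blank (h0 : κ default = 0) (l : List Γ) (n : ℕ) :
    numL κ B (l ++ List.replicate n default) = numL κ B l := by
  induction l with
  | nil =>
    induction n with
    | zero => rfl
    | succ n ih =>
      simp only [List.nil_append, numL, List.replicate_succ, List.foldr_cons] at ih ⊢
      rw [ih, h0]
      simp
  | cons a l ih =>
    simp only [List.cons_append, numL, List.foldr_cons] at ih ⊢
    rw [ih]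

/-- The number coded by a blank-terminated list. -/
def num (h0 : κ default = 0) (l : ListBlank Γ) : ℕ :=
  l.liftOn (numL κ B) (by
    rintro a b ⟨n, rfl⟩
    exact (numL_append_blank κ B h0 a n).symm)

theorem num_mk (h0 : κ default = 0) (l : List Γ) :
    num κ B h0 (ListBlank.mk l) = numL κ B l := rfl

theorem num_cons (h0 : κ default = 0) (a : Γ) (l : ListBlank Γ) :
    num κ B h0 (ListBlank.cons a l) = κ a + B * num κ B h0 l := by
  induction l using ListBlank.induction_on with
  | _ l => rfl

theorem num_head_tail (h0 : κ default = 0) (l : ListBlank Γ) :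
    num κ B h0 l = κ l.head + B * num κ B h0 l.tail := by
  conv_lhs => rw [← ListBlank.cons_head_tail l]
  exact num_cons κ B h0 _ _

end Num

theorem exists_sys_of_machine {Γ Λ : Type} [Inhabited Γ] [Inhabited Λ] [Finite Γ] [Finite Λ]
    (M : TM0.Machine Γ Λ) :
    ∃ (T : Sys) (κ : Γ → ℕ) (B c₀ : ℕ), ∀ l : List Γ,
      (StateTransition.eval (TM0.step M) (TM0.init l)).Dom ↔
        Halts T 0 (κ l.headI + c₀ + B * numL κ B l.tail) := by
  classical
  obtain ⟨g, ⟨e⟩⟩ := Finite.exists_equiv_fin Γ
  obtain ⟨lb, ⟨e'⟩⟩ := Finite.exists_equiv_fin Λ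
  let κ : Γ → ℕ := fun a => if a = default then 0 else (e a).val + 1
  let ι : Λ → ℕ := fun q => (e' q).val
  have h0 : κ default = 0 := by simp [κ]
  let G := g + 2
  let B := G * (lb + 1)
  have hκ : ∀ a, κ a < G := by
    intro a
    simp only [κ, G]
    split_ifs
    · omega
    · have := (e a).isLt; omega
  have hκi : Function.Injective κ := by
    intro a b h
    simp only [κ] at h
    split_ifs at h with h1 h2 h2
    · rw [h1, h2]
    · have : (e a).val = (e b).val := by omega
      exact e.injective (Fin.ext this)
  have hι : ∀ q, ι q < lb + 1 := by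
    intro q
    have := (e' q).isLt
    simp only [ι]; omega
  have hιi : Function.Injective ι := by
    intro a b h
    exact e'.injective (Fin.ext h)
  have hG : 2 ≤ G := by simp [G]
  have hcode : ∀ (q : Λ) (n : ℕ), n < G → n + G * ι q < B := by
    intro q n hn
    have := hι q
    simp only [B]
    calc n + G * ι q < G + G * ι q := by omega
      _ = G * (ι q + 1) := by ring
      _ ≤ G * (lb + 1) := Nat.mul_le_mul_left _ (by omega)
  have hB : 2 ≤ B := by
    simp only [B]
    calc 2 ≤ G * 1 := by omega
      _ ≤ G * (lb + 1) := Nat.mul_le_mul_left _ (by omega)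
  have hB0 : 0 < B := by omega
  let step : ℕ → ℕ → Option (ℕ × ℕ × ℕ × ℕ) := fun lam rho =>
    match M (Function.invFun ι (rho % B / G)) (Function.invFun κ (rho % B % G)) with
    | none => none
    | some (q', TM0.Stmt.write b) => some (B * B, lam, B * B, κ b + G * ι q' + B * (rho / B))
    | some (q', TM0.Stmt.move Dir.right) =>
      some (B * B * B, rho % B % G + B * lam, B, rho / B + G * ι q')
    | some (q', TM0.Stmt.move Dir.left) =>
      some (B, lam / B, B * B * B,
        lam % B + G * ι q' + B * (rho % B % G) + B * B * (rho / B))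
  let T : Sys := ⟨B * B, by nlinarith, step⟩
  let eL : TM0.Cfg Γ Λ → ℕ := fun c => num κ B h0 c.Tape.left
  let eR : TM0.Cfg Γ Λ → ℕ := fun c => κ c.Tape.head + G * ι c.q + B * num κ B h0 c.Tape.right
  have hmain : ∀ c : TM0.Cfg Γ Λ,
      (TM0.step M c = none → T.step (eL c % T.D) (eR c % T.D) = none) ∧
      (∀ c', TM0.step M c = some c' → ∃ m k m' k', T.step (eL c % T.D) (eR c % T.D) =
        some (m, k, m', k') ∧ m * (eL c / T.D) + k = eL c' ∧ m' * (eR c / T.D) + k' = eR c') := by
    rintro ⟨q, tp⟩
    have hcd : κ tp.head + G * ι q < B := hcode q _ (hκ _)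
    have hR1 : eR ⟨q, tp⟩ % (B * B) % B = κ tp.head + G * ι q := by
      rw [Nat.mod_mul_left_mod]
      simp only [eR]
      rw [Nat.add_mul_mod_self_left, Nat.mod_eq_of_lt hcd]
    have hR2 : eR ⟨q, tp⟩ % (B * B) / B = κ tp.right.head := by
      rw [Nat.mod_mul_right_div_self]
      simp only [eR]
      rw [Nat.add_mul_div_left _ _ hB0, Nat.div_eq_of_lt hcd, zero_add, num_head_tail κ B h0,
        Nat.add_mul_mod_self_left, Nat.mod_eq_of_lt]
      calc κ tp.right.head < G := hκ _
        _ ≤ B := by simp only [B]; exact Nat.le_mul_of_pos_right _ (by omega)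
    have hR3 : eR ⟨q, tp⟩ / (B * B) = num κ B h0 tp.right.tail := by
      rw [← Nat.div_div_eq_div_mul]
      simp only [eR]
      rw [Nat.add_mul_div_left _ _ hB0, Nat.div_eq_of_lt hcd, zero_add, num_head_tail κ B h0,
        Nat.add_mul_div_left _ _ hB0, Nat.div_eq_of_lt, zero_add]
      calc κ tp.right.head < G := hκ _
        _ ≤ B := by simp only [B]; exact Nat.le_mul_of_pos_right _ (by omega)
    have hL1 : eL ⟨q, tp⟩ % B = κ tp.left.head := by
      simp only [eL]
      rw [num_head_tail κ B h0, Nat.add_mul_mod_self_left, Nat.mod_eq_of_lt]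
      calc κ tp.left.head < G := hκ _
        _ ≤ B := by simp only [B]; exact Nat.le_mul_of_pos_right _ (by omega)
    have hL2 : eL ⟨q, tp⟩ / B = num κ B h0 tp.left.tail := by
      simp only [eL]
      rw [num_head_tail κ B h0, Nat.add_mul_div_left _ _ hB0, Nat.div_eq_of_lt, zero_add]
      calc κ tp.left.head < G := hκ _
        _ ≤ B := by simp only [B]; exact Nat.le_mul_of_pos_right _ (by omega)
    have hq : Function.invFun ι ((κ tp.head + G * ι q) / G) = q := by
      rw [Nat.add_mul_div_left _ _ (by omega), Nat.div_eq_of_lt (hκ _), zero_add]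
      exact Function.leftInverse_invFun hιi q
    have ha0 : (κ tp.head + G * ι q) % G = κ tp.head := by
      rw [Nat.add_mul_mod_self_left, Nat.mod_eq_of_lt (hκ _)]
    have ha : Function.invFun κ ((κ tp.head + G * ι q) % G) = tp.head := by
      rw [ha0]
      exact Function.leftInverse_invFun hκi _
    have hstep : T.step (eL ⟨q, tp⟩ % T.D) (eR ⟨q, tp⟩ % T.D) =
        match M q tp.head with
        | none => none
        | some (q', TM0.Stmt.write b) => some (B * B, eL ⟨q, tp⟩ % (B * B), B * B,
            κ b + G * ι q' + B * κ tp.right.head)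
        | some (q', TM0.Stmt.move Dir.right) =>
          some (B * B * B, κ tp.head + B * (eL ⟨q, tp⟩ % (B * B)), B,
            κ tp.right.head + G * ι q')
        | some (q', TM0.Stmt.move Dir.left) =>
          some (B, eL ⟨q, tp⟩ % (B * B) / B, B * B * B,
            eL ⟨q, tp⟩ % (B * B) % B + G * ι q' + B * κ tp.head +
              B * B * κ tp.right.head) := by
      change step (eL ⟨q, tp⟩ % (B * B)) (eR ⟨q, tp⟩ % (B * B)) = _
      simp only [step]
      rw [hR1, hR2, hq, ha, ha0]
    have hdm : B * B * (eL ⟨q, tp⟩ / (B * B)) + eL ⟨q, tp⟩ % (B * B) = eL ⟨q, tp⟩ :=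
      Nat.div_add_mod _ _
    constructor
    · intro h
      rw [hstep]
      rcases hM : M q tp.head with _ | ⟨q', st⟩
      · rfl
      · simp [TM0.step, hM] at h
    · intro c' h
      rw [hstep]
      rcases hM : M q tp.head with _ | ⟨q', st⟩
      · simp [TM0.step, hM] at h
      · simp only [TM0.step, hM, Option.map_some, Option.some.injEq] at h
        subst h
        rcases st with d | b
        · rcases d with _ | _
          · -- left
            refine ⟨_, _, _, _, rfl, ?_, ?_⟩
            · change B * (eL ⟨q, tp⟩ / (B * B)) + eL ⟨q, tp⟩ % (B * B) / B =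
                num κ B h0 tp.left.tail
              rw [← hL2, Nat.mod_mul_right_div_self, ← Nat.div_div_eq_div_mul]
              exact Nat.div_add_mod _ _
            · change B * B * B * (eR ⟨q, tp⟩ / (B * B)) + _ =
                κ tp.left.head + G * ι q' + B * num κ B h0 (tp.right.cons tp.head)
              rw [hR3, num_cons, num_head_tail κ B h0 tp.right, Nat.mod_mul_left_mod, hL1]
              ring
          · -- right
            refine ⟨_, _, _, _, rfl, ?_, ?_⟩
            · change B * B * B * (eL ⟨q, tp⟩ / (B * B)) + _ =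
                num κ B h0 (tp.left.cons tp.head)
              rw [num_cons]
              have : num κ B h0 tp.left = eL ⟨q, tp⟩ := rfl
              rw [this]
              calc _ = κ tp.head + B * (B * B * (eL ⟨q, tp⟩ / (B * B)) +
                    eL ⟨q, tp⟩ % (B * B)) := by ring
                _ = _ := by rw [hdm]
            · change B * (eR ⟨q, tp⟩ / (B * B)) + _ =
                κ tp.right.head + G * ι q' + B * num κ B h0 tp.right.tail
              rw [hR3]
              ring
        · refine ⟨_, _, _, _, rfl, ?_, ?_⟩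
          · change B * B * (eL ⟨q, tp⟩ / (B * B)) + _ = num κ B h0 tp.left
            exact hdm
          · change B * B * (eR ⟨q, tp⟩ / (B * B)) + _ =
              κ b + G * ι q' + B * num κ B h0 tp.right
            rw [hR3, num_head_tail κ B h0 tp.right]
            ring
  refine ⟨T, κ, B, G * ι default, fun l => ?_⟩
  have hinitL : eL (TM0.init l) = 0 := rfl
  have hinitR : eR (TM0.init l) = κ l.headI + G * ι default + B * numL κ B l.tail := rfl
  have key : ∀ c : TM0.Cfg Γ Λ, (StateTransition.eval (TM0.step M) c).Dom ↔
      Halts T (eL c) (eR c) := by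
    intro c
    constructor
    · intro h
      have h1 := StateTransition.mem_eval.1 (Part.get_mem h)
      obtain ⟨hr, hn⟩ := h1
      set b := (StateTransition.eval (TM0.step M) c).get h with hb
      clear_value b
      clear hb h
      induction hr using Relation.ReflTransGen.head_induction_on with
      | refl => exact Halts.stop _ _ ((hmain b).1 hn)
      | head h1 _ ih =>
        obtain ⟨m, k, m', k', e1, e2, e3⟩ := (hmain _).2 _ (Option.mem_def.1 h1)
        refine Halts.next _ _ m k m' k' e1 ?_
        rw [e2, e3]
        exact ih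
    · intro h
      generalize hLe : eL c = L at h
      generalize hRe : eR c = R at h
      induction h generalizing c with
      | stop L R h =>
        subst hLe hRe
        have hn : TM0.step M c = none := by
          rcases hs : TM0.step M c with _ | c'
          · rfl
          · obtain ⟨m, k, m', k', e1, -, -⟩ := (hmain c).2 c' hs
            rw [e1] at h
            cases h
        exact Part.dom_iff_mem.2 ⟨c, StateTransition.mem_eval.2 ⟨Relation.ReflTransGen.refl, hn⟩⟩
      | next L R m k m' k' h _ ih =>
        subst hLe hRe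
        rcases hs : TM0.step M c with _ | c'
        · rw [(hmain c).1 hs] at h
          cases h
        · obtain ⟨m1, k1, m1', k1', e1, e2, e3⟩ := (hmain c).2 c' hs
          rw [e1] at h
          simp only [Option.some.injEq, Prod.mk.injEq] at h
          obtain ⟨rfl, rfl, rfl, rfl⟩ := h
          have hd := ih c' e2.symm e3.symm
          obtain ⟨b, hb⟩ := Part.dom_iff_mem.1 hd
          obtain ⟨hr, hn⟩ := StateTransition.mem_eval.1 hb
          exact Part.dom_iff_mem.2 ⟨b, StateTransition.mem_eval.2
            ⟨Relation.ReflTransGen.head (Option.mem_def.2 hs) hr, hn⟩⟩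
  rw [key, hinitL, hinitR]

/-- A fixed residue-affine system with undecidable halting from computable starting pairs. -/
theorem exists_sys : ∃ (T : Sys) (r : ℕ → ℕ), Computable r ∧
    ¬ ComputablePred (fun n => Halts T 0 (r n)) := by
  obtain ⟨Λ, i1, i2, M, hM⟩ := exists_machine
  have hK : Finite PartrecToTM2.K' := by
    let f : PartrecToTM2.K' → Fin 4 := fun k => match k with
      | .main => 0 | .rev => 1 | .aux => 2 | .stack => 3
    apply Finite.of_injective f
    intro x y h
    cases x <;> cases y <;> simp_all [f]
  have hΓ : Finite PartrecToTM2.Γ' := by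
    let f : PartrecToTM2.Γ' → Fin 4 := fun k => match k with
      | .consₗ => 0 | .cons => 1 | .bit0 => 2 | .bit1 => 3
    apply Finite.of_injective f
    intro x y h
    cases x <;> cases y <;> simp_all [f]
  have hfin : Finite (TM2to1.Γ' PartrecToTM2.K' (fun _ => PartrecToTM2.Γ')) := by
    have : Finite (PartrecToTM2.K' → Option PartrecToTM2.Γ') := Pi.finite
    exact Finite.instProd
  obtain ⟨T, κ, B, c₀, hT⟩ := exists_sys_of_machine M
  refine ⟨T, fun n => κ (sym true .cons) + c₀ +
    B * numL κ B ((trNat n).reverse.map (sym false)), ?_, ?_⟩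
  · have h1 : Computable (fun n : ℕ => ((trNat n).map (fun a => κ (sym false a))).reverse) :=
      Computable.list_reverse.comp (digits_computable _)
    have h2 : Computable (fun l : List ℕ => l.foldr (fun a n => a + B * n) 0) := by
      apply Primrec.to_comp
      refine Primrec.list_foldr (h := fun _ p => p.1 + B * p.2) Primrec.id (Primrec.const 0) ?_
      exact Primrec.nat_add.comp (Primrec.fst.comp Primrec.snd)
        (Primrec.nat_mul.comp (Primrec.const B) (Primrec.snd.comp Primrec.snd))
    have h3 : ∀ n, numL κ B ((trNat n).reverse.map (sym false)) =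
        (((trNat n).map (fun a => κ (sym false a))).reverse).foldr (fun a n => a + B * n) 0 := by
      intro n
      unfold numL
      rw [← List.map_reverse, List.foldr_map, List.foldr_map]
    have h4 := h2.comp h1
    have h5 : Computable (fun n : ℕ => numL κ B ((trNat n).reverse.map (sym false))) :=
      h4.of_eq (fun n => (h3 n).symm)
    exact (Primrec.nat_add.to_comp.comp (Computable.const _)
      (Primrec.nat_mul.to_comp.comp (Computable.const B) h5))
  · intro h
    refine u_not_computable (h.of_eq fun n => ?_)
    have := hT (sym true .cons :: (trNat n).reverse.map (sym false))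
    simp only [List.headI_cons, List.tail_cons] at this
    rw [← this]
    exact hM n

end Pool.Agent.Helper522.Machine
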