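import Mathlib
import Pool.Agent.Helper522.Core
import Pool.Agent.Helper522.Machine

/-!
The contracting group simulating a two-register residue-affine system.
-/

set_option autoImplicit false

namespace Pool.Agent.Helper522.Sim

open Pool.Agent.Helper522 Pool.Agent.Helper522.Machine Rec

/-- The three generators. -/
inductive Gen
  | a | b | s
  deriving DecidableEq, Fintype

/-- The kinds of blocks. -/
inductive Kind
  | A | B | SA | SB | SS | N
  deriving DecidableEq

abbrev gA : FreeGroup Gen := FreeGroup.of Gen.a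
abbrev gB : FreeGroup Gen := FreeGroup.of Gen.b
abbrev gS : FreeGroup Gen := FreeGroup.of Gen.s

/-- The chain of blocks attached to an instruction. -/
def chain : Option (ℕ × ℕ × ℕ × ℕ) → List Kind
  | none => []
  | some (m, c, m', c') =>
    List.replicate m' Kind.B ++ ((List.replicate c' [Kind.SB, Kind.N]).flatten ++
      (List.replicate m Kind.A ++ ((List.replicate c [Kind.SA, Kind.N]).flatten ++
        [Kind.SS, Kind.N])))

/-- The common number of blocks in a chain. -/
def len (T : Sys) : ℕ :=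
  (∑ i ∈ Finset.range T.D, ∑ j ∈ Finset.range T.D, (chain (T.step i j)).length) + 2

theorem chain_length_lt (T : Sys) (i j : ℕ) (hi : i < T.D) (hj : j < T.D) :
    (chain (T.step i j)).length + 2 ≤ len T := by
  unfold len
  have h1 : (chain (T.step i j)).length ≤
      ∑ j ∈ Finset.range T.D, (chain (T.step i j)).length :=
    Finset.single_le_sum (f := fun j => (chain (T.step i j)).length) (fun _ _ => Nat.zero_le _)
      (Finset.mem_range.2 hj)
  have h2 : ∑ j ∈ Finset.range T.D, (chain (T.step i j)).length ≤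
      ∑ i ∈ Finset.range T.D, ∑ j ∈ Finset.range T.D, (chain (T.step i j)).length :=
    Finset.single_le_sum (f := fun i => ∑ j ∈ Finset.range T.D, (chain (T.step i j)).length)
      (fun _ _ => Nat.zero_le _) (Finset.mem_range.2 hi)
  omega

variable (T : Sys)

/-- Letters: system index, position in the chain, torus coordinate, sign. -/
abbrev Lt : Type :=
  (ZMod T.D × ZMod T.D) × ZMod (len T) × (ZMod T.D × ZMod T.D) × Bool

instance : NeZero T.D := ⟨by have := T.hD; omega⟩
instance : NeZero (len T) := ⟨by unfold len; omega⟩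

/-- The instruction at a residue pair. -/
def instr (σ : ZMod T.D × ZMod T.D) : Option (ℕ × ℕ × ℕ × ℕ) := T.step σ.1.val σ.2.val

/-- Whether the residue pair has an instruction. -/
def Active (σ : ZMod T.D × ZMod T.D) : Prop := instr T σ ≠ none

instance (σ : ZMod T.D × ZMod T.D) : Decidable (Active T σ) := by
  unfold Active; infer_instance

/-- The kind of the block at position `i` of the chain of `σ`. -/
def kind (σ : ZMod T.D × ZMod T.D) (i : ZMod (len T)) : Kind :=
  (chain (instr T σ)).getD i.val Kind.N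

/-- Section of `s` along the link leaving a block of the given kind. -/
def sgn : Kind → FreeGroup Gen
  | Kind.SA => gA
  | Kind.SB => gB
  | Kind.SS => gS
  | _ => 1

def permA : Equiv.Perm (Lt T) where
  toFun x := match x with
    | (σ, i, u, true) => (σ, i, (u.1 + 1, u.2), true)
    | (σ, i, u, false) => (σ, i, (u.1 - 1, u.2), false)
  invFun x := match x with
    | (σ, i, u, true) => (σ, i, (u.1 - 1, u.2), true)
    | (σ, i, u, false) => (σ, i, (u.1 + 1, u.2), false)
  left_inv := by rintro ⟨σ, i, ⟨u, v⟩, _ | _⟩ <;> simp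
  right_inv := by rintro ⟨σ, i, ⟨u, v⟩, _ | _⟩ <;> simp

def permB : Equiv.Perm (Lt T) where
  toFun x := match x with
    | (σ, i, u, true) => (σ, i, (u.1, u.2 + 1), true)
    | (σ, i, u, false) => (σ, i, (u.1, u.2 - 1), false)
  invFun x := match x with
    | (σ, i, u, true) => (σ, i, (u.1, u.2 - 1), true)
    | (σ, i, u, false) => (σ, i, (u.1, u.2 + 1), false)
  left_inv := by rintro ⟨σ, i, ⟨u, v⟩, _ | _⟩ <;> simp
  right_inv := by rintro ⟨σ, i, ⟨u, v⟩, _ | _⟩ <;> simp

def sFun : Lt T → Lt T
  | (σ, i, u, true) => if Active T σ ∧ u = σ then (σ, i + 1, 0, true) else (σ, i, u, false)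
  | (σ, i, u, false) => if Active T σ ∧ u = 0 then (σ, i - 1, σ, false) else (σ, i, u, true)

def sInv : Lt T → Lt T
  | (σ, i, u, true) => if Active T σ ∧ u = 0 then (σ, i - 1, σ, true) else (σ, i, u, false)
  | (σ, i, u, false) => if Active T σ ∧ u = σ then (σ, i + 1, 0, false) else (σ, i, u, true)

def permS : Equiv.Perm (Lt T) where
  toFun := sFun T
  invFun := sInv T
  left_inv := by
    rintro ⟨σ, i, u, _ | _⟩
    · by_cases h : Active T σ ∧ u = 0
      · simp [sFun, sInv, h]
      · simp only [sFun, if_neg h, sInv]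
    · by_cases h : Active T σ ∧ u = σ
      · simp [sFun, sInv, h]
      · simp only [sFun, if_neg h, sInv]
  right_inv := by
    rintro ⟨σ, i, u, _ | _⟩
    · by_cases h : Active T σ ∧ u = σ
      · simp [sFun, sInv, h]
      · simp only [sInv, if_neg h, sFun]
    · by_cases h : Active T σ ∧ u = 0
      · simp [sFun, sInv, h]
      · simp only [sInv, if_neg h, sFun]

def secA : Lt T → FreeGroup Gen
  | (σ, i, u, true) => if kind T σ i = Kind.A ∧ u.1 = -1 then gA else 1
  | (σ, i, u, false) => if kind T σ i = Kind.A ∧ u.1 = 0 then gA⁻¹ else 1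

def secB : Lt T → FreeGroup Gen
  | (σ, i, u, true) => if kind T σ i = Kind.B ∧ u.2 = -1 then gB else 1
  | (σ, i, u, false) => if kind T σ i = Kind.B ∧ u.2 = 0 then gB⁻¹ else 1

def secS : Lt T → FreeGroup Gen
  | (σ, i, u, true) => if Active T σ ∧ u = σ then sgn (kind T σ i) else 1
  | (σ, i, u, false) => if Active T σ ∧ u = 0 then (sgn (kind T σ (i - 1)))⁻¹ else 1

/-- The simulating recursion. -/
def simRec : Rec (Lt T) Gen where
  perm g := match g with
    | Gen.a => permA T
    | Gen.b => permB T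
    | Gen.s => permS T
  sec g := match g with
    | Gen.a => secA T
    | Gen.b => secB T
    | Gen.s => secS T

/-- The element coding the pair `(L, R)`. -/
def W (L R : ℕ) : FreeGroup Gen := gS * (gA ^ L * gB ^ R)

variable {T}

/-- Section of `a^L b^R` at a positive letter. -/
def Cs (T : Sys) (k : Kind) (L R : ℕ) (u : ZMod T.D × ZMod T.D) : FreeGroup Gen :=
  match k with
  | Kind.A => gA ^ ((u.1.val + L) / T.D)
  | Kind.B => gB ^ ((u.2.val + R) / T.D)
  | _ => 1

/-- the residue pair -/
def res (T : Sys) (L R : ℕ) : ZMod T.D × ZMod T.D := ((L : ZMod T.D), (R : ZMod T.D))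

theorem pow_carry {F : Type} [Group F] (g : F) (D : ℕ) [NeZero D] (u : ZMod D) (L : ℕ) :
    (if u + L = -1 then g else 1) * g ^ ((u.val + L) / D) = g ^ ((u.val + (L + 1)) / D) := by
  have h1 : (u + L = -1) ↔ D ∣ u.val + L + 1 := by
    rw [← ZMod.natCast_eq_zero_iff]
    push_cast
    rw [ZMod.natCast_zmod_val]
    constructor
    · intro h; rw [h]; ring
    · intro h; exact eq_neg_of_add_eq_zero_left h
  rw [← add_assoc, Nat.succ_div]
  by_cases h : D ∣ u.val + L + 1
  · rw [if_pos (h1.2 h), if_pos h, pow_succ']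
  · rw [if_neg (fun h' => h (h1.1 h')), if_neg h, one_mul, add_zero]

theorem pow_carry_neg {F : Type} [Group F] (g : F) (D : ℕ) [NeZero D] (hD : 2 ≤ D)
    (u : ZMod D) (L : ℕ) :
    (if u - L = 0 then g⁻¹ else 1) * (g ^ (((u - L).val + L) / D))⁻¹ =
      (g ^ (((u - (L + 1 : ℕ)).val + (L + 1)) / D))⁻¹ := by
  set v : ZMod D := u - (L + 1 : ℕ) with hv
  have hvu : u - (L : ZMod D) = v + 1 := by rw [hv]; push_cast; ring
  rw [hvu]
  have : Fact (1 < D) := ⟨by omega⟩
  by_cases h : v + 1 = 0
  · rw [if_pos h, h, ZMod.val_zero, zero_add]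
    have hv1 : v = -1 := eq_neg_of_add_eq_zero_left h
    have hval : v.val = D - 1 := by
      rw [hv1]
      obtain ⟨n, rfl⟩ : ∃ n, D = n + 1 := ⟨D - 1, by omega⟩
      rw [ZMod.val_neg_one]
      rfl
    have e : v.val + (L + 1) = L + D := by omega
    rw [e, Nat.add_div_right _ (by omega), pow_succ', mul_inv_rev, ← mul_inv_rev, ← mul_inv_rev,
      ← pow_succ, ← pow_succ']
  · rw [if_neg h, one_mul]
    have hval : (v + 1).val = v.val + 1 := by
      rw [ZMod.val_add_of_lt, ZMod.val_one]
      rw [ZMod.val_one]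
      by_contra hc
      have h3 := ZMod.val_lt v
      have h4 : v.val = D - 1 := by omega
      apply h
      have h5 : ((v.val + 1 : ℕ) : ZMod D) = 0 := by
        rw [h4, Nat.sub_add_cancel (by omega)]
        exact ZMod.natCast_self D
      push_cast at h5
      rwa [ZMod.natCast_zmod_val] at h5
    rw [hval]
    congr 3
    omega

theorem powA_pos (L : ℕ) (σ : ZMod T.D × ZMod T.D) (i : ZMod (len T)) (u : ZMod T.D × ZMod T.D) :
    (simRec T).pi (gA ^ L) (σ, i, u, true) = (σ, i, (u.1 + L, u.2), true) ∧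
    (simRec T).sc (gA ^ L) (σ, i, u, true) =
      if kind T σ i = Kind.A then gA ^ ((u.1.val + L) / T.D) else 1 := by
  induction L with
  | zero =>
    have : u.1.val / T.D = 0 := Nat.div_eq_of_lt (ZMod.val_lt _)
    simp [this]
  | succ L ih =>
    rw [pow_succ', pi_mul, sc_mul, Equiv.Perm.mul_apply, ih.1, ih.2]
    constructor
    · simp only [pi_of, simRec, permA, Equiv.coe_fn_mk]
      push_cast
      rw [add_assoc]
    · simp only [sc_of, simRec, secA]
      by_cases hk : kind T σ i = Kind.A
      · simp only [hk, true_and, if_true]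
        exact pow_carry gA T.D u.1 L
      · simp [hk]

theorem powB_pos (L : ℕ) (σ : ZMod T.D × ZMod T.D) (i : ZMod (len T)) (u : ZMod T.D × ZMod T.D) :
    (simRec T).pi (gB ^ L) (σ, i, u, true) = (σ, i, (u.1, u.2 + L), true) ∧
    (simRec T).sc (gB ^ L) (σ, i, u, true) =
      if kind T σ i = Kind.B then gB ^ ((u.2.val + L) / T.D) else 1 := by
  induction L with
  | zero =>
    have : u.2.val / T.D = 0 := Nat.div_eq_of_lt (ZMod.val_lt _)
    simp [this]
  | succ L ih =>
    rw [pow_succ', pi_mul, sc_mul, Equiv.Perm.mul_apply, ih.1, ih.2]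
    constructor
    · simp only [pi_of, simRec, permB, Equiv.coe_fn_mk]
      push_cast
      rw [add_assoc]
    · simp only [sc_of, simRec, secB]
      by_cases hk : kind T σ i = Kind.B
      · simp only [hk, true_and, if_true]
        exact pow_carry gB T.D u.2 L
      · simp [hk]

theorem powA_neg (L : ℕ) (σ : ZMod T.D × ZMod T.D) (i : ZMod (len T)) (u : ZMod T.D × ZMod T.D) :
    (simRec T).pi (gA ^ L) (σ, i, u, false) = (σ, i, (u.1 - L, u.2), false) ∧
    (simRec T).sc (gA ^ L) (σ, i, u, false) =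
      if kind T σ i = Kind.A then (gA ^ (((u.1 - L).val + L) / T.D))⁻¹ else 1 := by
  induction L with
  | zero =>
    have : u.1.val / T.D = 0 := Nat.div_eq_of_lt (ZMod.val_lt _)
    simp [this]
  | succ L ih =>
    rw [pow_succ', pi_mul, sc_mul, Equiv.Perm.mul_apply, ih.1, ih.2]
    constructor
    · simp only [pi_of, simRec, permA, Equiv.coe_fn_mk]
      push_cast
      rw [sub_sub]
    · simp only [sc_of, simRec, secA]
      by_cases hk : kind T σ i = Kind.A
      · simp only [hk, true_and, if_true]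
        exact pow_carry_neg gA T.D T.hD u.1 L
      · simp [hk]

theorem powB_neg (L : ℕ) (σ : ZMod T.D × ZMod T.D) (i : ZMod (len T)) (u : ZMod T.D × ZMod T.D) :
    (simRec T).pi (gB ^ L) (σ, i, u, false) = (σ, i, (u.1, u.2 - L), false) ∧
    (simRec T).sc (gB ^ L) (σ, i, u, false) =
      if kind T σ i = Kind.B then (gB ^ (((u.2 - L).val + L) / T.D))⁻¹ else 1 := by
  induction L with
  | zero =>
    have : u.2.val / T.D = 0 := Nat.div_eq_of_lt (ZMod.val_lt _)
    simp [this]
  | succ L ih =>
    rw [pow_succ', pi_mul, sc_mul, Equiv.Perm.mul_apply, ih.1, ih.2]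
    constructor
    · simp only [pi_of, simRec, permB, Equiv.coe_fn_mk]
      push_cast
      rw [sub_sub]
    · simp only [sc_of, simRec, secB]
      by_cases hk : kind T σ i = Kind.B
      · simp only [hk, true_and, if_true]
        exact pow_carry_neg gB T.D T.hD u.2 L
      · simp [hk]

theorem c_pos (L R : ℕ) (σ : ZMod T.D × ZMod T.D) (i : ZMod (len T))
    (u : ZMod T.D × ZMod T.D) :
    (simRec T).pi (gA ^ L * gB ^ R) (σ, i, u, true) = (σ, i, u + res T L R, true) ∧
    (simRec T).sc (gA ^ L * gB ^ R) (σ, i, u, true) = Cs T (kind T σ i) L R u := by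
  rw [pi_mul, sc_mul, Equiv.Perm.mul_apply, (powB_pos R σ i u).1, (powB_pos R σ i u).2,
    (powA_pos L σ i _).1, (powA_pos L σ i _).2]
  constructor
  · rfl
  · rcases hk : kind T σ i <;> simp [Cs]

theorem c_neg (L R : ℕ) (σ : ZMod T.D × ZMod T.D) (i : ZMod (len T))
    (u : ZMod T.D × ZMod T.D) :
    (simRec T).pi (gA ^ L * gB ^ R) (σ, i, u, false) = (σ, i, u - res T L R, false) ∧
    (simRec T).sc (gA ^ L * gB ^ R) (σ, i, u, false) =
      (Cs T (kind T σ i) L R (u - res T L R))⁻¹ := by
  rw [pi_mul, sc_mul, Equiv.Perm.mul_apply, (powB_neg R σ i u).1, (powB_neg R σ i u).2,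
    (powA_neg L σ i _).1, (powA_neg L σ i _).2]
  constructor
  · rfl
  · rcases hk : kind T σ i <;> simp [Cs, res]

theorem W_pos_link (L R : ℕ) (σ : ZMod T.D × ZMod T.D) (i : ZMod (len T))
    (u : ZMod T.D × ZMod T.D) (hσ : Active T σ) (hu : u + res T L R = σ) :
    (simRec T).pi (W L R) (σ, i, u, true) = (σ, i + 1, 0, true) ∧
    (simRec T).sc (W L R) (σ, i, u, true) = sgn (kind T σ i) * Cs T (kind T σ i) L R u := by
  unfold W
  rw [pi_mul, sc_mul, Equiv.Perm.mul_apply, (c_pos L R σ i u).1, (c_pos L R σ i u).2, hu]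
  simp [simRec, permS, sFun, secS, hσ]

theorem W_pos_turn (L R : ℕ) (σ : ZMod T.D × ZMod T.D) (i : ZMod (len T))
    (u : ZMod T.D × ZMod T.D) (h : ¬ (Active T σ ∧ u + res T L R = σ)) :
    (simRec T).pi (W L R) (σ, i, u, true) = (σ, i, u + res T L R, false) ∧
    (simRec T).sc (W L R) (σ, i, u, true) = Cs T (kind T σ i) L R u := by
  unfold W
  rw [pi_mul, sc_mul, Equiv.Perm.mul_apply, (c_pos L R σ i u).1, (c_pos L R σ i u).2]
  simp [simRec, permS, sFun, secS, h]

theorem W_neg_link (L R : ℕ) (σ : ZMod T.D × ZMod T.D) (i : ZMod (len T))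
    (u : ZMod T.D × ZMod T.D) (hσ : Active T σ) (hu : u - res T L R = 0) :
    (simRec T).pi (W L R) (σ, i, u, false) = (σ, i - 1, σ, false) ∧
    (simRec T).sc (W L R) (σ, i, u, false) =
      (sgn (kind T σ (i - 1)))⁻¹ * (Cs T (kind T σ i) L R 0)⁻¹ := by
  unfold W
  rw [pi_mul, sc_mul, Equiv.Perm.mul_apply, (c_neg L R σ i u).1, (c_neg L R σ i u).2, hu]
  simp [simRec, permS, sFun, secS, hσ]

theorem W_neg_turn (L R : ℕ) (σ : ZMod T.D × ZMod T.D) (i : ZMod (len T))
    (u : ZMod T.D × ZMod T.D) (h : ¬ (Active T σ ∧ u - res T L R = 0)) :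
    (simRec T).pi (W L R) (σ, i, u, false) = (σ, i, u - res T L R, true) ∧
    (simRec T).sc (W L R) (σ, i, u, false) = (Cs T (kind T σ i) L R (u - res T L R))⁻¹ := by
  unfold W
  rw [pi_mul, sc_mul, Equiv.Perm.mul_apply, (c_neg L R σ i u).1, (c_neg L R σ i u).2]
  simp [simRec, permS, sFun, secS, h]

theorem good_of_unstep {X S : Type} {R : Rec X S} {g : FreeGroup S} {k : ℕ} {x : X}
    (h : R.Good g k (R.pi g x)) : R.Good g k x := by
  have e : g ^ k * g = g * g ^ k := by rw [← pow_succ, pow_succ']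
  have e0 : R.pi (g ^ k * g) x = R.pi (g * g ^ k) x := by rw [e]
  rw [pi_mul, pi_mul, Equiv.Perm.mul_apply, Equiv.Perm.mul_apply, h.1] at e0
  have e1 : R.pi (g ^ k) x = x := ((R.pi g).injective e0).symm
  refine ⟨e1, ?_⟩
  have e2 : R.sc (g ^ k * g) x = R.sc (g * g ^ k) x := by rw [e]
  rw [sc_mul, sc_mul, e1] at e2
  have e3 : R.sc (g ^ k) x = (R.sc g x)⁻¹ * R.sc (g ^ k) (R.pi g x) * R.sc g x := by
    rw [mul_assoc, e2]; group
  rw [e3]
  exact h.2.conj' _

theorem good_of_inv {X S : Type} {R : Rec X S} {g : FreeGroup S} {k : ℕ} {x : X}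
    (h : R.Good g⁻¹ k x) : R.Good g k x := by
  obtain ⟨h1, h2⟩ := h
  rw [inv_pow] at h1 h2
  have h3 : R.pi (g ^ k) x = x := by
    rw [pi_inv] at h1
    conv_lhs => rw [← h1]
    simp
  refine ⟨h3, ?_⟩
  rw [sc_inv, ← pi_inv, h1] at h2
  simpa using h2.inv

theorem good_two (L R : ℕ) (σ : ZMod T.D × ZMod T.D) (i : ZMod (len T))
    (u : ZMod T.D × ZMod T.D) (h : ¬ (Active T σ ∧ u + res T L R = σ))
    (h' : ¬ (Active T σ ∧ u = 0)) : (simRec T).Good (W L R) 2 (σ, i, u, true) := by
  obtain ⟨h1, h2⟩ := W_pos_turn L R σ i u h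
  obtain ⟨h3, h4⟩ := W_neg_turn L R σ i (u + res T L R) (by simpa using h')
  rw [add_sub_cancel_right] at h3 h4
  constructor
  · rw [pow_two, pi_mul, Equiv.Perm.mul_apply, h1, h3]
  · rw [pow_two, sc_mul, h1, h2, h4, inv_mul_cancel]
    exact Triv.one

theorem pi_four {X S : Type} {R : Rec X S} (g : FreeGroup S) (x0 x1 x2 x3 x4 : X)
    (e0 e1 e2 e3 : FreeGroup S)
    (h0 : R.pi g x0 = x1 ∧ R.sc g x0 = e0) (h1 : R.pi g x1 = x2 ∧ R.sc g x1 = e1)
    (h2 : R.pi g x2 = x3 ∧ R.sc g x2 = e2) (h3 : R.pi g x3 = x4 ∧ R.sc g x3 = e3) :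
    R.pi (g ^ 3) x0 = x3 ∧ R.pi (g ^ 4) x0 = x4 ∧ R.sc (g ^ 4) x0 = e3 * (e2 * (e1 * e0)) := by
  have a1 : g ^ 3 = g * (g * g) := by rw [pow_succ', pow_two]
  have a2 : g ^ 4 = g * (g * (g * g)) := by rw [pow_succ', a1]
  rw [a1, a2]
  simp only [pi_mul, sc_mul, Equiv.Perm.mul_apply, h0.1, h0.2, h1.1, h1.2, h2.1, h2.2, h3.1,
    h3.2]
  exact ⟨trivial, trivial, trivial⟩

theorem good_four (L R : ℕ) (σ : ZMod T.D × ZMod T.D) (i : ZMod (len T))
    (hσ : Active T σ) (hr : res T L R ≠ σ) :
    (simRec T).Good (W L R) 4 (σ, i, 0, true) ∧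
    (simRec T).pi (W L R ^ 3) (σ, i, 0, true) = (σ, i - 1, σ - res T L R, true) := by
  have h0 := W_pos_turn L R σ i 0 (by rw [zero_add]; exact fun h => hr h.2)
  rw [zero_add] at h0
  have h1 := W_neg_link L R σ i (res T L R) hσ (by simp)
  have h2 := W_neg_turn L R σ (i - 1) σ (fun h => hr (sub_eq_zero.1 h.2).symm)
  have h3 := W_pos_link L R σ (i - 1) (σ - res T L R) hσ (by simp)
  rw [sub_add_cancel] at h3
  obtain ⟨a1, a2, a3⟩ := pi_four _ _ _ _ _ _ _ _ _ _ h0 h1 h2 h3
  refine ⟨⟨a2, ?_⟩, a1⟩
  rw [a3]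
  have : sgn (kind T σ (i - 1)) * Cs T (kind T σ (i - 1)) L R (σ - res T L R) *
      ((Cs T (kind T σ (i - 1)) L R (σ - res T L R))⁻¹ *
        ((sgn (kind T σ (i - 1)))⁻¹ * (Cs T (kind T σ i) L R 0)⁻¹ *
          Cs T (kind T σ i) L R 0)) = 1 := by group
  rw [this]
  exact Triv.one

theorem good_all (L R K : ℕ) (h4 : 4 ∣ K)
    (hr : Active T (res T L R) → ∀ i, (simRec T).Good (W L R) K (res T L R, i, 0, true) ∧
      (simRec T).Good (W L R) K (res T L R, i, res T L R, false)) (x : Lt T) :
    (simRec T).Good (W L R) K x := by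
  obtain ⟨q, rfl⟩ := h4
  have hpos : ∀ σ i u, (simRec T).Good (W L R) (4 * q) (σ, i, u, true) := by
    intro σ i u
    by_cases hσ : Active T σ
    · by_cases h1 : res T L R = σ
      · by_cases hu : u = 0
        · subst h1 hu
          exact (hr hσ i).1
        · have := good_two L R σ i u (by rw [← h1]; simpa using fun _ => hu)
            (fun h => hu h.2)
          have h2 := this.mul (2 * q)
          rwa [← mul_assoc] at h2
      · by_cases hu : u = 0
        · subst hu
          exact (good_four L R σ i hσ h1).1.mul q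
        · by_cases hu2 : u + res T L R = σ
          · obtain ⟨g1, g2⟩ := good_four L R σ (i + 1) hσ h1
            have g3 := g1.steps 3
            rw [g2, add_sub_cancel_right] at g3
            have : u = σ - res T L R := eq_sub_of_add_eq hu2
            rw [this]
            exact g3.mul q
          · have := good_two L R σ i u (fun h => hu2 h.2) (fun h => hu h.2)
            have h2 := this.mul (2 * q)
            rwa [← mul_assoc] at h2
    · have := good_two L R σ i u (fun h => hσ h.1) (fun h => hσ h.1)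
      have h2 := this.mul (2 * q)
      rwa [← mul_assoc] at h2
  have hneg1 : ∀ σ i u, ¬ (Active T σ ∧ u - res T L R = 0) →
      (simRec T).Good (W L R) (4 * q) (σ, i, u, false) := by
    intro σ i u h
    apply good_of_unstep
    rw [(W_neg_turn L R σ i u h).1]
    exact hpos _ _ _
  obtain ⟨σ, i, u, _ | _⟩ := x
  · by_cases h : Active T σ ∧ u - res T L R = 0
    · by_cases h1 : res T L R = σ
      · have h2 : u = res T L R := sub_eq_zero.1 h.2
        subst h1
        rw [h2]
        exact (hr h.1 i).2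
      · apply good_of_unstep
        rw [(W_neg_link L R σ i u h.1 h.2).1]
        exact hneg1 _ _ _ (fun h' => h1 (sub_eq_zero.1 h'.2).symm)
    · exact hneg1 _ _ _ h
  · exact hpos _ _ _

theorem prodDown_congr {F : Type} [Group F] {f g : ℕ → F} {k : ℕ} (h : ∀ j < k, f j = g j) :
    prodDown f k = prodDown g k := by
  induction k with
  | zero => rfl
  | succ k ih =>
    rw [prodDown, prodDown, h k (by omega), ih (fun j hj => h j (by omega))]

theorem prodDown_one {F : Type} [Group F] (k : ℕ) : prodDown (fun _ => (1 : F)) k = 1 := by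
  induction k with
  | zero => rfl
  | succ k ih => rw [prodDown, ih, one_mul]

/-- Product of the values of a list of kinds, last one first. -/
def rp (T : Sys) (L R : ℕ) : List Kind → FreeGroup Gen
  | [] => 1
  | k :: l => rp T L R l * (sgn k * Cs T k L R 0)

theorem rp_append (L R : ℕ) (l₁ l₂ : List Kind) :
    rp T L R (l₁ ++ l₂) = rp T L R l₂ * rp T L R l₁ := by
  induction l₁ with
  | nil => simp [rp]
  | cons k l ih => simp only [List.cons_append, rp, ih, mul_assoc]

theorem rp_replicate (L R n : ℕ) (k : Kind) :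
    rp T L R (List.replicate n k) = (sgn k * Cs T k L R 0) ^ n := by
  induction n with
  | zero => rfl
  | succ n ih => rw [List.replicate_succ, rp, ih, pow_succ]

theorem rp_replicate' (L R n : ℕ) (k : Kind) :
    rp T L R (List.replicate n [k, Kind.N]).flatten = (sgn k * Cs T k L R 0) ^ n := by
  induction n with
  | zero => rfl
  | succ n ih =>
    rw [List.replicate_succ, List.flatten_cons, rp_append, ih, pow_succ]
    simp [rp, sgn, Cs]

theorem prodDown_list (L R : ℕ) (l : List Kind) (n : ℕ) (hn : l.length ≤ n) :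
    prodDown (fun j => sgn (l.getD j Kind.N) * Cs T (l.getD j Kind.N) L R 0) n =
      rp T L R l := by
  induction l generalizing n with
  | nil =>
    have : (fun j : ℕ => sgn (([] : List Kind).getD j Kind.N) *
        Cs T (([] : List Kind).getD j Kind.N) L R 0) = fun _ => 1 := by
      funext j
      simp [sgn, Cs]
    rw [this, prodDown_one]
    rfl
  | cons k l ih =>
    obtain ⟨n, rfl⟩ : ∃ m, n = m + 1 := ⟨n - 1, by simp at hn; omega⟩
    rw [prodDown_succ']
    simp only [List.getD_cons_succ, List.getD_cons_zero, rp]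
    rw [ih n (by simpa using hn)]

theorem rp_chain (L R m c m' c' : ℕ) :
    rp T L R (chain (some (m, c, m', c'))) = W (m * (L / T.D) + c) (m' * (R / T.D) + c') := by
  simp only [chain, rp_append, rp_replicate, rp_replicate', rp, sgn, Cs, ZMod.val_zero,
    Prod.fst_zero, Prod.snd_zero, zero_add, W]
  simp only [pow_add, one_mul, mul_one, ← pow_mul]
  have e1 : gA ^ (m * (L / T.D)) * gA ^ c = gA ^ c * gA ^ (m * (L / T.D)) := by
    rw [← pow_add, ← pow_add, add_comm]
  have e2 : gB ^ (m' * (R / T.D)) * gB ^ c' = gB ^ c' * gB ^ (m' * (R / T.D)) := by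
    rw [← pow_add, ← pow_add, add_comm]
  rw [e1, e2, mul_comm (L / T.D) m, mul_comm (R / T.D) m']
  group

theorem instr_res (L R : ℕ) : instr T (res T L R) = T.step (L % T.D) (R % T.D) := by
  simp [instr, res, ZMod.val_natCast]

theorem kind_cast (σ : ZMod T.D × ZMod T.D) (j : ℕ) (hj : j < len T) :
    kind T σ (j : ZMod (len T)) = (chain (instr T σ)).getD j Kind.N := by
  unfold kind
  rw [ZMod.val_natCast_of_lt hj]

theorem len_ge (σ : ZMod T.D × ZMod T.D) : (chain (instr T σ)).length + 2 ≤ len T :=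
  chain_length_lt T _ _ (ZMod.val_lt _) (ZMod.val_lt _)

theorem cycle_pos (L R m c m' c' : ℕ)
    (h : T.step (L % T.D) (R % T.D) = some (m, c, m', c')) (k : ℕ) :
    (simRec T).pi (W L R ^ k) (res T L R, 0, 0, true) = (res T L R, (k : ZMod (len T)), 0, true) ∧
    (simRec T).sc (W L R ^ len T) (res T L R, 0, 0, true) =
      W (m * (L / T.D) + c) (m' * (R / T.D) + c') := by
  have hact : Active T (res T L R) := by
    unfold Active
    rw [instr_res, h]
    simp
  let x : ℕ → Lt T := fun j => (res T L R, (j : ZMod (len T)), 0, true)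
  have hx : ∀ j, (simRec T).pi (W L R) (x j) = x (j + 1) := by
    intro j
    simp only [x]
    rw [(W_pos_link L R _ _ 0 hact (zero_add _)).1]
    push_cast
    rfl
  have h0 : x 0 = (res T L R, 0, 0, true) := by simp [x]
  rw [← h0]
  refine ⟨(orbit x hx k).1, ?_⟩
  rw [(orbit x hx (len T)).2, ← rp_chain L R m c m' c',
    ← prodDown_list L R _ (len T) (by
      have := len_ge (T := T) (res T L R)
      rw [instr_res, h] at this
      omega)]
  apply prodDown_congr
  intro j hj
  simp only [x]
  rw [(W_pos_link L R _ _ 0 hact (zero_add _)).2, kind_cast _ j hj, instr_res, h]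

theorem prodDown_twist {F : Type} [Group F] (C E : ℕ → F) (k : ℕ) :
    prodDown (fun i => C (i + 1) * E i) k = C k * prodDown (fun i => E i * C i) k * (C 0)⁻¹ := by
  induction k with
  | zero => simp [prodDown]
  | succ k ih =>
    rw [prodDown, prodDown, ih]
    group

theorem cycle_neg (L R : ℕ) (hact : Active T (res T L R)) (k : ℕ) :
    (simRec T).pi ((W L R)⁻¹ ^ k) (res T L R, 0, res T L R, false) =
      (res T L R, (k : ZMod (len T)), res T L R, false) ∧
    (simRec T).sc ((W L R)⁻¹ ^ len T) (res T L R, 0, res T L R, false) =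
      Cs T (kind T (res T L R) 0) L R 0 * (simRec T).sc (W L R ^ len T) (res T L R, 0, 0, true) *
        (Cs T (kind T (res T L R) 0) L R 0)⁻¹ := by
  let x : ℕ → Lt T := fun j => (res T L R, (j : ZMod (len T)), 0, true)
  have hx : ∀ j, (simRec T).pi (W L R) (x j) = x (j + 1) := by
    intro j
    simp only [x]
    rw [(W_pos_link L R _ _ 0 hact (zero_add _)).1]
    push_cast
    rfl
  let y : ℕ → Lt T := fun j => (res T L R, (j : ZMod (len T)), res T L R, false)
  have hWy : ∀ j, (simRec T).pi (W L R) (y (j + 1)) = y j := by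
    intro j
    simp only [y]
    rw [(W_neg_link L R _ _ (res T L R) hact (sub_self _)).1]
    push_cast
    rw [add_sub_cancel_right]
  have hy : ∀ j, (simRec T).pi (W L R)⁻¹ (y j) = y (j + 1) := by
    intro j
    rw [← hWy j, pi_inv]
    exact Equiv.symm_apply_apply _ _
  have h0 : y 0 = (res T L R, 0, res T L R, false) := by simp [y]
  have hx0 : x 0 = (res T L R, 0, 0, true) := by simp [x]
  rw [← h0, ← hx0]
  refine ⟨(orbit y hy k).1, ?_⟩
  rw [(orbit y hy (len T)).2, (orbit x hx (len T)).2]
  let C : ℕ → FreeGroup Gen := fun j => Cs T (kind T (res T L R) (j : ZMod (len T))) L R 0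
  let E : ℕ → FreeGroup Gen := fun j => sgn (kind T (res T L R) (j : ZMod (len T)))
  have e1 : (fun i => (simRec T).sc (W L R)⁻¹ (y i)) = fun i => C (i + 1) * E i := by
    funext i
    rw [← hWy i, sc_inv']
    simp only [y, C, E]
    rw [(W_neg_link L R _ _ (res T L R) hact (sub_self _)).2]
    push_cast
    rw [add_sub_cancel_right]
    group
  have e2 : (fun i => (simRec T).sc (W L R) (x i)) = fun i => E i * C i := by
    funext i
    simp only [x, C, E]
    rw [(W_pos_link L R _ _ 0 hact (zero_add _)).2]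
  rw [e1, e2, prodDown_twist]
  simp only [C]
  rw [ZMod.natCast_self]
  simp

/-- The order of the element coding `(L, R)` is finite exactly if the system halts. -/
theorem finite_of_halts {L R : ℕ} (h : Halts T L R) :
    ∃ K, 1 ≤ K ∧ (simRec T).Triv (W L R ^ K) := by
  induction h with
  | stop L R h =>
    refine ⟨4, by norm_num, triv_of_good (good_all L R 4 (dvd_refl _) ?_)⟩
    intro hact
    exact absurd (by rw [instr_res]; exact h) hact
  | next L R m c m' c' h _ ih =>
    obtain ⟨e, he, ht⟩ := ih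
    have hact : Active T (res T L R) := by
      unfold Active
      rw [instr_res, h]
      simp
    have hlen : 2 ≤ len T := by unfold len; omega
    have g0 : (simRec T).Good (W L R) (len T * e) (res T L R, 0, 0, true) := by
      obtain ⟨h1, h2⟩ := cycle_pos L R m c m' c' h (len T)
      rw [ZMod.natCast_self] at h1
      obtain ⟨h3, h4⟩ := sc_pow_of_fix h1 e
      unfold Rec.Good
      rw [pow_mul]
      refine ⟨h3, ?_⟩
      rw [h4, h2]
      exact ht
    have g1 : (simRec T).Good (W L R)⁻¹ (len T * e) (res T L R, 0, res T L R, false) := by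
      obtain ⟨h1, h2⟩ := cycle_neg L R hact (len T)
      rw [ZMod.natCast_self] at h1
      obtain ⟨h3, h4⟩ := sc_pow_of_fix h1 e
      unfold Rec.Good
      rw [pow_mul]
      refine ⟨h3, ?_⟩
      rw [h4, h2, (cycle_pos L R m c m' c' h 0).2, conj_pow]
      exact ht.conj _
    refine ⟨4 * (len T * e), by nlinarith, triv_of_good (good_all L R _ (dvd_mul_right _ _) ?_)⟩
    intro _ i
    constructor
    · have := g0.steps i.val
      rw [(cycle_pos L R m c m' c' h i.val).1, ZMod.natCast_zmod_val] at this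
      have h5 := this.mul 4
      rwa [mul_comm (len T * e) 4] at h5
    · have := g1.steps i.val
      rw [(cycle_neg L R hact i.val).1, ZMod.natCast_zmod_val] at this
      have h5 := (good_of_inv this).mul 4
      rwa [mul_comm (len T * e) 4] at h5

theorem halts_of_finite (K : ℕ) : ∀ (L R : ℕ), 1 ≤ K → (simRec T).Triv (W L R ^ K) →
    Halts T L R := by
  induction K using Nat.strong_induction_on with
  | _ K ih =>
    intro L R hK ht
    rcases h : T.step (L % T.D) (R % T.D) with _ | ⟨m, c, m', c'⟩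
    · exact Halts.stop _ _ h
    · refine Halts.next _ _ m c m' c' h ?_
      have hlen : 2 ≤ len T := by unfold len; omega
      obtain ⟨h1, h2⟩ := triv_iff.1 ht
      have h3 := (cycle_pos L R m c m' c' h K).1
      rw [h1] at h3
      simp only [Equiv.Perm.coe_one, id_eq, Prod.mk.injEq, true_and, and_true] at h3
      have h4 : len T ∣ K := by
        rw [← ZMod.natCast_eq_zero_iff]
        exact h3.symm
      obtain ⟨j, rfl⟩ := h4
      have hj : 1 ≤ j := by
        rcases Nat.eq_zero_or_pos j with rfl | hj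
        · simp at hK
        · exact hj
      have h5 := h2 (res T L R, 0, 0, true)
      obtain ⟨h6, h7⟩ := cycle_pos L R m c m' c' h (len T)
      rw [ZMod.natCast_self] at h6
      rw [pow_mul, (sc_pow_of_fix h6 j).2, h7] at h5
      exact ih j (by nlinarith) _ _ hj h5

/-! ### Contraction -/

/-- The set of elements of length at most one. -/
def Short (g : FreeGroup Gen) : Prop :=
  g = 1 ∨ ∃ y : Gen, g = FreeGroup.of y ∨ g = (FreeGroup.of y)⁻¹

end Pool.Agent.Helper522.Sim
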