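import Mathlib
import Pool.Agent.Helper522.Core
import Pool.Agent.Helper522.Machine
import Pool.Agent.Helper522.Sim

/-!
Contraction of the simulating group, and the extension by a directed element whose order is the
order of the element coding the input.
-/

set_option autoImplicit false

namespace Pool.Agent.Helper522.Contract

open Pool.Agent.Helper522 Pool.Agent.Helper522.Machine Rec Pool.Agent.Helper522.Sim

/-- Elements represented by a word of length at most `n`. -/
def Nrm {S : Type} (n : ℕ) (g : FreeGroup S) : Prop :=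
  ∃ l : List (S × Bool), l.length ≤ n ∧ g = FreeGroup.mk l

theorem Nrm.mono {S : Type} {n m : ℕ} {g : FreeGroup S} (h : Nrm n g) (hnm : n ≤ m) :
    Nrm m g := by
  obtain ⟨l, hl, rfl⟩ := h
  exact ⟨l, by omega, rfl⟩

theorem Nrm.one {S : Type} (n : ℕ) : Nrm n (1 : FreeGroup S) := ⟨[], by simp, rfl⟩

theorem Nrm.mul {S : Type} {n m : ℕ} {g h : FreeGroup S} (hg : Nrm n g) (hh : Nrm m h) :
    Nrm (n + m) (g * h) := by
  obtain ⟨l, hl, rfl⟩ := hg
  obtain ⟨l', hl', rfl⟩ := hh
  exact ⟨l ++ l', by simp; omega, by rw [FreeGroup.mul_mk]⟩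

theorem Nrm.exists {S : Type} (g : FreeGroup S) : ∃ n, Nrm n g := by
  obtain ⟨l, rfl⟩ := Quot.exists_rep g
  exact ⟨_, l, le_refl _, rfl⟩

theorem Nrm.pow {S : Type} {n : ℕ} {g : FreeGroup S} (h : Nrm n g) (k : ℕ) :
    Nrm (k * n) (g ^ k) := by
  induction k with
  | zero => rw [pow_zero]; exact Nrm.one _
  | succ k ih =>
    rw [pow_succ]
    exact (ih.mul h).mono (by ring_nf; omega)

theorem Nrm.map {S S' : Type} (f : S → S') {n : ℕ} {g : FreeGroup S} (h : Nrm n g) :
    Nrm n (FreeGroup.map f g) := by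
  obtain ⟨l, hl, rfl⟩ := h
  exact ⟨l.map (fun x => (f x.1, x.2)), by simpa using hl, by rw [FreeGroup.map.mk]⟩

theorem nrm_finite {S : Type} [Finite S] (n : ℕ) : {g : FreeGroup S | Nrm n g}.Finite := by
  have h := (List.finite_length_le (S × Bool) n).image FreeGroup.mk
  refine h.subset ?_
  rintro g ⟨l, hl, rfl⟩
  exact ⟨l, hl, rfl⟩

/-- The generator or its inverse. -/
def lett {S : Type} (p : S × Bool) : FreeGroup S := FreeGroup.mk [p]

theorem lett_true {S : Type} (s : S) : lett (s, true) = FreeGroup.of s := rfl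
theorem lett_false {S : Type} (s : S) : lett (s, false) = (FreeGroup.of s)⁻¹ := rfl

theorem nrm_lett {S : Type} (p : S × Bool) : Nrm 1 (lett p) := ⟨[p], by simp, rfl⟩

theorem nrm_inv {S : Type} {g : FreeGroup S} {n : ℕ} (h : Nrm n g) : Nrm n g⁻¹ := by
  obtain ⟨l, hl, rfl⟩ := h
  exact ⟨FreeGroup.invRev l, by simpa using hl, by rw [FreeGroup.inv_mk]⟩

/-- The product of any two generators or inverses has sections of length at most one. -/
def PairShort {X S : Type} (R : Rec X S) : Prop :=
  (∀ (p : S × Bool) (x : X), Nrm 1 (R.sc (lett p) x)) ∧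
  ∀ (p q : S × Bool) (x : X), Nrm 1 (R.sc (lett p * lett q) x)

theorem PairShort.half {X S : Type} {R : Rec X S} (h : PairShort R) :
    ∀ (n : ℕ) (g : FreeGroup S), Nrm n g → ∀ x, Nrm ((n + 1) / 2) (R.sc g x) := by
  intro n
  induction n using Nat.strong_induction_on with
  | _ n ih =>
    rintro g ⟨l, hl, rfl⟩ x
    rcases l with _ | ⟨p, _ | ⟨q, l⟩⟩
    · have : (FreeGroup.mk ([] : List (S × Bool))) = 1 := rfl
      rw [this, sc_one]
      exact Nrm.one _
    · have : 1 ≤ n := by simpa using hl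
      exact (h.1 p x).mono (by omega)
    · have e : FreeGroup.mk (p :: q :: l) = (lett p * lett q) * FreeGroup.mk l := by
        simp [lett, FreeGroup.mul_mk]
      simp only [List.length_cons] at hl
      rw [e, sc_mul]
      have h1 := h.2 p q (R.pi (FreeGroup.mk l) x)
      have h2 := ih (n - 2) (by omega) (FreeGroup.mk l) ⟨l, by omega, rfl⟩ x
      exact (h1.mul h2).mono (by omega)

theorem isS_of_sgn {k : Kind} (h : sgn k ≠ 1) : k = Kind.SA ∨ k = Kind.SB ∨ k = Kind.SS := by
  cases k <;> simp_all [sgn]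

/-- Every signal kind in the list is followed by a neutral one. -/
def Sep (l : List Kind) : Prop :=
  ∀ i, sgn (l.getD i Kind.N) ≠ 1 → l.getD (i + 1) Kind.N = Kind.N

theorem sep_nil : Sep [] := by
  intro i _
  simp

theorem sep_cons {k : Kind} {l : List Kind} (hk : sgn k = 1) (h : Sep l) : Sep (k :: l) := by
  intro i hi
  rcases i with _ | i
  · simp [hk] at hi
  · simpa using h i (by simpa using hi)

theorem sep_pair {k : Kind} {l : List Kind} (h : Sep l) : Sep (k :: Kind.N :: l) := by
  intro i hi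
  rcases i with _ | _ | i
  · simp
  · simp [sgn] at hi
  · simpa using h i (by simpa using hi)

theorem sep_replicate {k : Kind} {l : List Kind} (hk : sgn k = 1) (h : Sep l) (n : ℕ) :
    Sep (List.replicate n k ++ l) := by
  induction n with
  | zero => simpa using h
  | succ n ih =>
    rw [List.replicate_succ, List.cons_append]
    exact sep_cons hk ih

theorem sep_replicate' {k : Kind} {l : List Kind} (h : Sep l) (n : ℕ) :
    Sep ((List.replicate n [k, Kind.N]).flatten ++ l) := by
  induction n with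
  | zero => simpa using h
  | succ n ih =>
    rw [List.replicate_succ, List.flatten_cons, List.append_assoc]
    exact sep_pair ih

theorem sep_chain (o : Option (ℕ × ℕ × ℕ × ℕ)) : Sep (chain o) := by
  rcases o with _ | ⟨m, c, m', c'⟩
  · exact sep_nil
  · unfold chain
    refine sep_replicate rfl (sep_replicate' (sep_replicate rfl (sep_replicate' ?_ _) _) _) _
    exact sep_pair sep_nil

variable {T : Sys}

theorem kind_sep (σ : ZMod T.D × ZMod T.D) (i : ZMod (len T)) (h : sgn (kind T σ i) ≠ 1) :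
    kind T σ (i + 1) = Kind.N := by
  have h1 := sep_chain (instr T σ) i.val h
  have hlen := len_ge (T := T) σ
  have hi : i.val < (chain (instr T σ)).length := by
    by_contra hc
    apply h
    unfold kind
    rw [List.getD_eq_default _ _ (by omega)]
    rfl
  have e : i + 1 = ((i.val + 1 : ℕ) : ZMod (len T)) := by
    push_cast
    rw [ZMod.natCast_zmod_val]
  rw [e, kind_cast σ _ (by omega)]
  exact h1

theorem kind_sep' (σ : ZMod T.D × ZMod T.D) (i : ZMod (len T))
    (h : sgn (kind T σ (i - 1)) ≠ 1) : kind T σ i = Kind.N := by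
  have := kind_sep σ (i - 1) h
  rwa [sub_add_cancel] at this

/-- The kind of the block of a letter. -/
def kd (x : Lt T) : Kind := kind T x.1 x.2.1

/-- Which kinds of blocks carry nontrivial sections of a generator. -/
def Kof : Gen → Kind → Prop
  | Gen.a, k => k = Kind.A
  | Gen.b, k => k = Kind.B
  | Gen.s, k => k ≠ Kind.A ∧ k ≠ Kind.B

theorem Kof_disj {y z : Gen} {k : Kind} (h1 : Kof y k) (h2 : Kof z k) : y = z := by
  cases y <;> cases z <;> simp_all [Kof]

theorem neg_one_ne : (0 : ZMod T.D) ≠ -1 := by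
  have : Fact (1 < T.D) := ⟨by have := T.hD; omega⟩
  intro h
  have h2 : (1 : ZMod T.D) = 0 := by
    have := congrArg Neg.neg h
    simpa using this.symm
  exact one_ne_zero h2

theorem gen_facts (y : Gen) (x : Lt T) (h : (simRec T).sec y x ≠ 1) :
    Kof y (kd x) ∧ Kof y (kd ((simRec T).perm y x)) ∧
      (simRec T).sec y ((simRec T).perm y x) = 1 := by
  obtain ⟨σ, i, u, _ | _⟩ := x
  · rcases y with _ | _ | _
    · simp only [simRec, secA, ne_eq, ite_eq_right_iff, Classical.not_imp] at h
      obtain ⟨⟨h1, h2⟩, -⟩ := h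
      refine ⟨h1, h1, ?_⟩
      simp only [simRec, permA, Equiv.coe_fn_mk, secA]
      rw [if_neg]
      rintro ⟨-, h3⟩
      rw [h2, zero_sub] at h3
      exact neg_one_ne h3.symm
    · simp only [simRec, secB, ne_eq, ite_eq_right_iff, Classical.not_imp] at h
      obtain ⟨⟨h1, h2⟩, -⟩ := h
      refine ⟨h1, h1, ?_⟩
      simp only [simRec, permB, Equiv.coe_fn_mk, secB]
      rw [if_neg]
      rintro ⟨-, h3⟩
      rw [h2, zero_sub] at h3
      exact neg_one_ne h3.symm
    · simp only [simRec, secS, ne_eq, ite_eq_right_iff, Classical.not_imp] at h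
      obtain ⟨⟨h1, h2⟩, h3⟩ := h
      have h3' : sgn (kind T σ (i - 1)) ≠ 1 := fun h => h3 (by rw [h, inv_one])
      have h4 := kind_sep' σ i h3'
      have h5 := isS_of_sgn h3'
      have hp : (simRec T).perm Gen.s (σ, i, u, false) = (σ, i - 1, σ, false) := by
        simp only [simRec, permS, Equiv.coe_fn_mk, sFun]
        rw [if_pos ⟨h1, h2⟩]
      refine ⟨?_, ?_, ?_⟩
      · simp [Kof, kd, h4]
      · rw [hp]
        rcases h5 with h5 | h5 | h5 <;> simp [Kof, kd, h5]
      · rw [hp]
        simp only [simRec, secS]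
        by_cases h6 : Active T σ ∧ σ = 0
        · rw [if_pos h6]
          by_cases h7 : sgn (kind T σ (i - 1 - 1)) = 1
          · rw [h7, inv_one]
          · exfalso
            have := kind_sep' σ (i - 1) h7
            rw [this] at h5
            simp at h5
        · rw [if_neg h6]
  · rcases y with _ | _ | _
    · simp only [simRec, secA, ne_eq, ite_eq_right_iff, Classical.not_imp] at h
      obtain ⟨⟨h1, h2⟩, -⟩ := h
      refine ⟨h1, h1, ?_⟩
      simp only [simRec, permA, Equiv.coe_fn_mk, secA]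
      rw [if_neg]
      rintro ⟨-, h3⟩
      rw [h2, neg_add_cancel] at h3
      exact neg_one_ne h3
    · simp only [simRec, secB, ne_eq, ite_eq_right_iff, Classical.not_imp] at h
      obtain ⟨⟨h1, h2⟩, -⟩ := h
      refine ⟨h1, h1, ?_⟩
      simp only [simRec, permB, Equiv.coe_fn_mk, secB]
      rw [if_neg]
      rintro ⟨-, h3⟩
      rw [h2, neg_add_cancel] at h3
      exact neg_one_ne h3
    · simp only [simRec, secS, ne_eq, ite_eq_right_iff, Classical.not_imp] at h
      obtain ⟨⟨h1, h2⟩, h3⟩ := h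
      have h4 := kind_sep σ i h3
      have h5 := isS_of_sgn h3
      have hp : (simRec T).perm Gen.s (σ, i, u, true) = (σ, i + 1, 0, true) := by
        simp only [simRec, permS, Equiv.coe_fn_mk, sFun]
        rw [if_pos ⟨h1, h2⟩]
      refine ⟨?_, ?_, ?_⟩
      · rcases h5 with h5 | h5 | h5 <;> simp [Kof, kd, h5]
      · rw [hp]
        simp [Kof, kd, h4]
      · rw [hp]
        simp only [simRec, secS]
        by_cases h6 : Active T σ ∧ (0 : ZMod T.D × ZMod T.D) = σ
        · rw [if_pos h6, h4]
          rfl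
        · rw [if_neg h6]

theorem lett_facts (p : Gen × Bool) (x : Lt T) (h : (simRec T).sc (lett p) x ≠ 1) :
    Kof p.1 (kd x) ∧ Kof p.1 (kd ((simRec T).pi (lett p) x)) ∧
      (simRec T).sc (lett p) ((simRec T).pi (lett p) x) = 1 := by
  obtain ⟨y, _ | _⟩ := p
  · rw [lett_false, sc_inv, pi_of, sc_of] at h
    have h' : (simRec T).sec y (((simRec T).perm y)⁻¹ x) ≠ 1 := fun hh => h (by rw [hh, inv_one])
    obtain ⟨h1, h2, h3⟩ := gen_facts y _ h'
    have e : (simRec T).perm y (((simRec T).perm y)⁻¹ x) = x := Equiv.apply_symm_apply _ _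
    rw [e] at h2 h3
    refine ⟨h2, ?_, ?_⟩
    · rw [lett_false, pi_inv, pi_of]
      exact h1
    · rw [lett_false, pi_inv, pi_of, sc_inv, pi_of, sc_of]
      by_contra hc
      have h4 : (simRec T).sec y (((simRec T).perm y)⁻¹ (((simRec T).perm y)⁻¹ x)) ≠ 1 :=
        fun hh => hc (by rw [hh, inv_one])
      obtain ⟨-, -, h5⟩ := gen_facts y _ h4
      have e2 : (simRec T).perm y (((simRec T).perm y)⁻¹ (((simRec T).perm y)⁻¹ x)) =
          ((simRec T).perm y)⁻¹ x := Equiv.apply_symm_apply _ _
      rw [e2] at h5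
      exact h' h5
  · rw [lett_true, sc_of] at h
    obtain ⟨h1, h2, h3⟩ := gen_facts y _ h
    rw [lett_true, pi_of, sc_of]
    exact ⟨h1, h2, h3⟩

theorem nrm_sec (y : Gen) (x : Lt T) : Nrm 1 ((simRec T).sec y x) := by
  have hA : Nrm 1 gA := nrm_lett (Gen.a, true)
  have hB : Nrm 1 gB := nrm_lett (Gen.b, true)
  have hS : Nrm 1 gS := nrm_lett (Gen.s, true)
  have h1 : Nrm 1 (1 : FreeGroup Gen) := Nrm.one 1
  have hsg : ∀ k, Nrm 1 (sgn k) := by
    intro k
    cases k <;> simp only [sgn] <;> assumption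
  obtain ⟨σ, i, u, _ | _⟩ := x <;> rcases y with _ | _ | _ <;>
    simp only [simRec, secA, secB, secS] <;> split_ifs <;>
    first
      | assumption
      | exact nrm_inv hA
      | exact nrm_inv hB
      | exact nrm_inv (hsg _)
      | exact hsg _

theorem pairShort_rec : PairShort (simRec T) := by
  have h0 : ∀ (p : Gen × Bool) (x : Lt T), Nrm 1 ((simRec T).sc (lett p) x) := by
    rintro ⟨y, _ | _⟩ x
    · rw [lett_false, sc_inv, sc_of]
      exact nrm_inv (nrm_sec y _)
    · rw [lett_true, sc_of]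
      exact nrm_sec y _
  refine ⟨h0, ?_⟩
  intro p q x
  rw [sc_mul]
  by_cases hq : (simRec T).sc (lett q) x = 1
  · rw [hq, mul_one]
    exact h0 _ _
  · by_cases hp : (simRec T).sc (lett p) ((simRec T).pi (lett q) x) = 1
    · rw [hp, one_mul]
      exact h0 _ _
    · obtain ⟨-, h2, h3⟩ := lett_facts q x hq
      obtain ⟨h4, -, -⟩ := lett_facts p _ hp
      have h5 := Kof_disj h4 h2
      obtain ⟨y, e⟩ := p
      obtain ⟨z, e'⟩ := q
      simp only at h5
      subst h5
      by_cases he : e = e'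
      · subst he
        exact absurd h3 hp
      · have : lett (y, e) * lett (y, e') = 1 := by
          cases e <;> cases e' <;> simp_all [lett_true, lett_false]
        rw [← sc_mul, this, sc_one]
        exact Nrm.one _

/-! ### The extension by a directed element -/

/-- The simulating group with one more generator `t = (t, w)` acting on two more letters. -/
def drec (T : Sys) (w : FreeGroup Gen) : Rec (Lt T ⊕ Bool) (Gen ⊕ Unit) :=
  Rec.ext (simRec T) (fun _ => 1) (fun _ e => match e with
    | false => FreeGroup.of (Sum.inr ())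
    | true => FreeGroup.map Sum.inl w)

/-- Contraction on the level of representatives. -/
def ContrRep {X S : Type} (R : Rec X S) : Prop :=
  ∃ N : Set (FreeGroup S), N.Finite ∧ ∀ g, ∃ n : ℕ, ∀ v : List X, n ≤ v.length →
    ∃ h ∈ N, R.Same (R.secL g v) h

abbrev gT : FreeGroup (Gen ⊕ Unit) := FreeGroup.of (Sum.inr ())
abbrev jj : FreeGroup Gen →* FreeGroup (Gen ⊕ Unit) := FreeGroup.map Sum.inl

theorem drec_new (w : FreeGroup Gen) (g : FreeGroup (Gen ⊕ Unit)) :
    ∃ k : ℤ, ∀ e : Bool, (drec T w).pi g (Sum.inr e) = Sum.inr e ∧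
      (drec T w).sc g (Sum.inr e) = (match e with
        | false => gT
        | true => jj w) ^ k := by
  induction g using FreeGroup.induction_on with
  | C1 => exact ⟨0, fun e => by simp⟩
  | of s =>
    rcases s with s | ⟨⟩
    · refine ⟨0, fun e => ?_⟩
      simp [drec, Rec.ext]
    · refine ⟨1, fun e => ?_⟩
      cases e <;> simp [drec, Rec.ext]
  | inv_of s h =>
    obtain ⟨k, hk⟩ := h
    refine ⟨-k, fun e => ?_⟩
    have h1 : ((drec T w).pi (FreeGroup.of s))⁻¹ (Sum.inr e) = Sum.inr e := by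
      conv_lhs => rw [← (hk e).1]
      exact Equiv.symm_apply_apply _ _
    rw [pi_inv, sc_inv, h1, (hk e).2, zpow_neg]
    exact ⟨rfl, rfl⟩
  | mul g h hg hh =>
    obtain ⟨k, hk⟩ := hg
    obtain ⟨l, hl⟩ := hh
    refine ⟨k + l, fun e => ?_⟩
    rw [pi_mul, sc_mul, Equiv.Perm.mul_apply, (hl e).1, (hl e).2, (hk e).1, (hk e).2, zpow_add]
    exact ⟨rfl, rfl⟩

theorem drec_inl (w : FreeGroup Gen) (g : FreeGroup (Gen ⊕ Unit)) (x : Lt T) :
    (drec T w).pi g (Sum.inl x) = Sum.inl ((simRec T).pi (kill g) x) ∧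
    (drec T w).sc g (Sum.inl x) = jj ((simRec T).sc (kill g) x) :=
  ext_inl _ _ _ _ _

theorem gT_pow (w : FreeGroup Gen) (k : ℕ) :
    (drec T w).pi (gT ^ k) = 1 ∧ (∀ x, (drec T w).sc (gT ^ k) (Sum.inl x) = 1) ∧
    (drec T w).sc (gT ^ k) (Sum.inr false) = gT ^ k ∧
    (drec T w).sc (gT ^ k) (Sum.inr true) = jj w ^ k := by
  have h0 : (drec T w).pi gT = 1 := by
    ext x
    rcases x with x | e <;> simp [drec, Rec.ext]
  induction k with
  | zero => simp
  | succ k ih =>
    obtain ⟨h1, h2, h3, h4⟩ := ih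
    refine ⟨?_, ?_, ?_, ?_⟩
    · rw [pow_succ, pi_mul, h1, h0, mul_one]
    · intro x
      rw [pow_succ, sc_mul, h0, Equiv.Perm.coe_one, id_eq, h2]
      simp [drec, Rec.ext]
    · rw [pow_succ, sc_mul, h0, Equiv.Perm.coe_one, id_eq, h3]
      simp [drec, Rec.ext]
    · rw [pow_succ, sc_mul, h0, Equiv.Perm.coe_one, id_eq, h4]
      simp [drec, Rec.ext, pow_succ]

theorem secL_jj (w : FreeGroup Gen) (v : List (Lt T ⊕ Bool)) :
    ∀ (n : ℕ) (h : FreeGroup Gen), Nrm n h →
      ∃ h' : FreeGroup Gen, (drec T w).secL (jj h) v = jj h' ∧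
        Nrm (max 1 (n - v.length)) h' ∧ Nrm n h' := by
  induction v with
  | nil =>
    intro n h hn
    exact ⟨h, rfl, hn.mono (by simp), hn⟩
  | cons x v ih =>
    intro n h hn
    rcases x with x | e
    · have e1 : (drec T w).secL (jj h) (Sum.inl x :: v) =
          (drec T w).secL (jj ((simRec T).sc h x)) v := by
        change (drec T w).secL ((drec T w).sc (jj h) (Sum.inl x)) v = _
        rw [(drec_inl w _ x).2, kill_map]
      have h2 := pairShort_rec.half n h hn x
      obtain ⟨h', h3, h4, h5⟩ := ih _ _ h2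
      rw [e1]
      rcases Nat.eq_zero_or_pos n with rfl | hn0
      · refine ⟨h', h3, h4.mono ?_, ?_⟩
        · simp only [List.length_cons]; omega
        · simpa using h5
      · refine ⟨h', h3, h4.mono ?_, h5.mono (by omega)⟩
        simp only [List.length_cons]
        omega
    · have e1 : (drec T w).secL (jj h) (Sum.inr e :: v) = 1 := by
        change (drec T w).secL ((drec T w).sc (jj h) (Sum.inr e)) v = _
        have := (ext_map_inr (simRec T) (fun _ : Unit => (1 : Equiv.Perm Bool))
          (fun _ e => match e with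
            | false => FreeGroup.of (Sum.inr ())
            | true => FreeGroup.map Sum.inl w) h e).2
        have h2 : (drec T w).sc (jj h) (Sum.inr e) = 1 := this
        rw [h2, secL_one]
      exact ⟨1, by rw [e1]; simp, Nrm.one _, Nrm.one _⟩

theorem nrm_secL_gT (w : FreeGroup Gen) {n k : ℕ} (hw : Nrm n w)
    (v : List (Lt T ⊕ Bool)) : Nrm (k + k * n) ((drec T w).secL (gT ^ k) v) := by
  induction v with
  | nil =>
    have h1 : Nrm 1 gT := nrm_lett (Sum.inr (), true)
    exact (h1.pow k).mono (by omega)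
  | cons x v ih =>
    obtain ⟨h1, h2, h3, h4⟩ := gT_pow (T := T) w k
    rcases x with x | _ | _
    · change Nrm _ ((drec T w).secL ((drec T w).sc (gT ^ k) (Sum.inl x)) v)
      rw [h2, secL_one]
      exact Nrm.one _
    · change Nrm _ ((drec T w).secL ((drec T w).sc (gT ^ k) (Sum.inr false)) v)
      rw [h3]
      exact ih
    · change Nrm _ ((drec T w).secL ((drec T w).sc (gT ^ k) (Sum.inr true)) v)
      rw [h4, ← _root_.map_pow]
      obtain ⟨h', e1, -, e3⟩ := secL_jj (T := T) w v (k * n) (w ^ k) (hw.pow k)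
      rw [e1]
      exact (e3.map _).mono (by omega)

theorem zpow_same {X S : Type} {R : Rec X S} {g : FreeGroup S} {e : ℕ} (he : 1 ≤ e)
    (h : R.Triv (g ^ e)) (k : ℤ) : ∃ k' < e, R.Same (g ^ k) (g ^ k') := by
  have he0 : (e : ℤ) ≠ 0 := by omega
  have h1 := Int.emod_nonneg k he0
  have h2 := Int.emod_lt_of_pos k (by omega : (0 : ℤ) < e)
  refine ⟨(k % e).toNat, by omega, ?_⟩
  have h3 : g ^ k = (g ^ e) ^ (k / e) * g ^ (k % e).toNat := by
    rw [← zpow_natCast g e, ← zpow_mul, ← zpow_natCast g (k % e).toNat, ← zpow_add]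
    congr 1
    rw [Int.toNat_of_nonneg h1]
    exact (Int.mul_ediv_add_emod k e).symm
  rw [h3]
  have h4 := Same.mul (h.zpow (k / e)) (Same.refl (R := R) (g ^ (k % e).toNat))
  rwa [one_mul] at h4

theorem contr_of_finite (w : FreeGroup Gen) {e : ℕ} (he : 1 ≤ e) (h : (simRec T).Triv (w ^ e)) :
    ContrRep (drec T w) := by
  obtain ⟨n, hn⟩ := Nrm.exists w
  have hjw : (drec T w).Triv (jj w ^ e) := by
    rw [← _root_.map_pow]
    exact (ext_triv_map _ _ _ _).2 h
  have ht : (drec T w).Triv (gT ^ e) := by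
    refine triv_of_closed {gT ^ e} ?_ _ rfl
    rintro _ rfl
    obtain ⟨h1, h2, h3, h4⟩ := gT_pow (T := T) w e
    refine ⟨h1, ?_⟩
    rintro (x | _ | _)
    · right; rw [h2]; exact Triv.one
    · left; exact h3
    · right; rw [h4]; exact hjw
  refine ⟨{g | Nrm (e + e * n + 1) g}, nrm_finite _, ?_⟩
  intro g
  obtain ⟨m, hm⟩ := Nrm.exists (kill g)
  refine ⟨m + 1, ?_⟩
  rintro (_ | ⟨x, v⟩) hv
  · simp at hv
  simp only [List.length_cons] at hv
  have hbd : ∀ k < e, k + k * n ≤ e + e * n + 1 := by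
    intro k hk
    have : k * n ≤ e * n := Nat.mul_le_mul_right _ hk.le
    omega
  rcases x with x | e'
  · have e1 : (drec T w).secL g (Sum.inl x :: v) =
        (drec T w).secL (jj ((simRec T).sc (kill g) x)) v := by
      change (drec T w).secL ((drec T w).sc g (Sum.inl x)) v = _
      rw [(drec_inl w _ x).2]
    have h2 := pairShort_rec.half m _ hm x
    obtain ⟨h', h3, h4, -⟩ := secL_jj (T := T) w v _ _ h2
    refine ⟨jj h', ?_, ?_⟩
    · refine ((h4.map Sum.inl).mono ?_ : Nrm _ _)
      have : (m + 1) / 2 - v.length ≤ 1 := by omega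
      omega
    · rw [e1, h3]
      exact Same.refl _
  · obtain ⟨k, hk⟩ := drec_new (T := T) w g
    have e1 : (drec T w).secL g (Sum.inr e' :: v) =
        (drec T w).secL ((drec T w).sc g (Sum.inr e')) v := rfl
    rw [e1, (hk e').2]
    cases e'
    · obtain ⟨k', hk', hs⟩ := zpow_same he ht k
      exact ⟨_, (nrm_secL_gT w hn v).mono (hbd k' hk'), hs.secL v⟩
    · obtain ⟨k', hk', hs⟩ := zpow_same he hjw k
      obtain ⟨h', e2, -, e4⟩ := secL_jj (T := T) w v (k' * n) (w ^ k') (hn.pow k')
      refine ⟨jj h', ?_, ?_⟩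
      · refine ((e4.map Sum.inl).mono ?_ : Nrm _ _)
        have := hbd k' hk'
        omega
      · have h5 := hs.secL v
        rw [← _root_.map_pow, e2] at h5
        exact h5

theorem finite_of_contr (w : FreeGroup Gen) (h : ContrRep (drec T w)) :
    ∃ e : ℕ, 1 ≤ e ∧ (simRec T).Triv (w ^ e) := by
  obtain ⟨N, hN, hc⟩ := h
  have key : ∀ k : ℕ, ∃ h ∈ N, (drec T w).Same (jj (w ^ k)) h := by
    intro k
    obtain ⟨n, hn⟩ := hc (gT ^ k)
    obtain ⟨h, hh, hs⟩ := hn (List.replicate n (Sum.inr false) ++ [Sum.inr true]) (by simp)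
    refine ⟨h, hh, ?_⟩
    have e1 : ∀ n : ℕ, (drec T w).secL (gT ^ k) (List.replicate n (Sum.inr false)) =
        gT ^ k := by
      intro n
      induction n with
      | zero => rfl
      | succ n ih =>
        rw [List.replicate_succ]
        change (drec T w).secL ((drec T w).sc (gT ^ k) (Sum.inr false)) _ = _
        rw [(gT_pow w k).2.2.1, ih]
    rw [secL_append, e1] at hs
    have e2 : (drec T w).secL (gT ^ k) [Sum.inr true] = jj (w ^ k) := by
      change (drec T w).sc (gT ^ k) (Sum.inr true) = _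
      rw [(gT_pow w k).2.2.2, ← _root_.map_pow]
    rwa [e2] at hs
  choose f hf hs using key
  obtain ⟨i, -, j, -, hij, hfij⟩ := Set.infinite_univ.exists_ne_map_eq_of_mapsTo
    (fun k _ => hf k) hN
  have key2 : ∀ i j : ℕ, i < j → f i = f j → ∃ e : ℕ, 1 ≤ e ∧ (simRec T).Triv (w ^ e) := by
    intro i j hlt heq
    refine ⟨j - i, by omega, ?_⟩
    have h1 : (drec T w).Same (jj (w ^ i)) (jj (w ^ j)) := by
      have h2 := hs j
      rw [← heq] at h2
      exact (hs i).trans h2.symm
    rw [← ext_triv_map (simRec T) (fun _ : Unit => (1 : Equiv.Perm Bool)) (fun _ e => match e with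
            | false => FreeGroup.of (Sum.inr ())
            | true => FreeGroup.map Sum.inl w)]
    have h3 := same_iff_triv.1 h1.symm
    have h4 : jj (w ^ j) * (jj (w ^ i))⁻¹ = jj (w ^ (j - i)) := by
      rw [← _root_.map_inv, ← _root_.map_mul]
      congr 1
      have : j = (j - i) + i := by omega
      conv_lhs => rw [this, pow_add]
      group
    rw [h4] at h3
    exact h3
  rcases Nat.lt_or_gt_of_ne hij with h | h
  · exact key2 i j h hfij
  · exact key2 j i h hfij.symm

/-- The directed extension is contracting exactly if the system halts. -/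
theorem contr_iff_halts (L R : ℕ) : ContrRep (drec T (W L R)) ↔ Halts T L R := by
  constructor
  · intro h
    obtain ⟨e, he, ht⟩ := finite_of_contr _ h
    exact halts_of_finite e L R he ht
  · intro h
    obtain ⟨e, he, ht⟩ := finite_of_halts h
    exact contr_of_finite _ he ht

end Pool.Agent.Helper522.Contract
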